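import Pool.Agent.Helper1.Stab.Grass
import Pool.Agent.Helper68.Stab.LocHom
import Pool.Agent.Helper68.Stab.Unstable

/-! The class formula for a representative of an element of the localised theory. -/

open Topology Filter Set

noncomputable section

namespace Pool.Agent.Helper1.Stab

/-- conjugation of a homotopy to the identity -/
theorem conj_homotopic {P Q : LC} (α : P ≃ₜ Q) {e : Q ≃ₜ Q}
    (h : (PMap.ofHomeo e).Homotopic (PMap.id Q)) :
    (PMap.ofHomeo (α.trans (e.trans α.symm))).Homotopic (PMap.id P) := by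
  have h1 := PMap.Homotopic.comp_right (PMap.ofHomeo α.symm) (h.comp_left (PMap.ofHomeo α))
  rw [PMap.id_comp] at h1
  have e1 : (PMap.ofHomeo α.symm).comp (PMap.ofHomeo α) = PMap.id P := by
    ext x
    exact congrArg OnePoint.some (α.symm_apply_apply x)
  rw [e1] at h1
  exact h1

/-- product of homotopies to the identity -/
theorem prod_homotopic {P Q : LC} {e : P ≃ₜ P} {e' : Q ≃ₜ Q}
    (h : (PMap.ofHomeo e).Homotopic (PMap.id P)) (h' : (PMap.ofHomeo e').Homotopic (PMap.id Q)) :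
    (PMap.ofHomeo (K := P.prod Q) (L := P.prod Q) (e.prodCongr e')).Homotopic
      (PMap.id (P.prod Q)) := by
  have h1 := PMap.Homotopic.box h h'
  rw [PMap.box_id] at h1
  exact h1

/-- rearrangement of the coordinates -/
def cfR (X Y Y' K : LC) : (X.prod Y).prod (Y'.prod K) ≃ₜ (Y.prod Y').prod (X.prod K) where
  toFun v := ((v.1.2, v.2.1), (v.1.1, v.2.2))
  invFun v := ((v.2.1, v.1.1), (v.1.2, v.2.2))
  left_inv _ := rfl
  right_inv _ := rfl
  continuous_toFun := by fun_prop
  continuous_invFun := by fun_prop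

/-- rearrangement of the coordinates -/
def cfQ (X Y G E P Z : LC) : ((X.prod Y).prod G).prod ((E.prod P).prod Z) ≃ₜ
    ((Y.prod E).prod G).prod (X.prod (P.prod Z)) where
  toFun v := (((v.1.1.2, v.2.1.1), v.1.2), (v.1.1.1, (v.2.1.2, v.2.2)))
  invFun v := (((v.2.1, v.1.1.1), v.1.2), ((v.1.1.2, v.2.2.1), v.2.2.2))
  left_inv _ := rfl
  right_inv _ := rfl
  continuous_toFun := by fun_prop
  continuous_invFun := by fun_prop

/-- `ℂ^((κ ⊔ ι) × o) = ℂ^(κ × o) × ℂ^(ι × o)` -/
def splitC (κ ι o : Type) [Fintype κ] [Fintype ι] [Fintype o] :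
    LC.cpow ((κ ⊕ ι) × o) ≃ₜ (LC.cpow (κ × o)).prod (LC.cpow (ι × o)) where
  toFun v := (fun x => v (.inl x.1, x.2), fun x => v (.inr x.1, x.2))
  invFun v := fun x => match x.1 with
    | .inl i => v.1 (i, x.2)
    | .inr i => v.2 (i, x.2)
  left_inv v := by ext ⟨i | i, j⟩ <;> rfl
  right_inv v := rfl
  continuous_toFun := by
    exact (continuous_pi fun _ => continuous_apply _).prodMk (continuous_pi fun _ => continuous_apply _)
  continuous_invFun := by
    refine continuous_pi ?_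
    rintro ⟨i | i, j⟩
    · exact (continuous_apply _).comp continuous_fst
    · exact (continuous_apply _).comp continuous_snd

/-- exchange of the two copies of the coordinates of the bundle -/
def cfTau (ι a : Type) : Equiv.Perm (((ι × Option a) ⊕ ι) × Option a) where
  toFun x := match x with
    | (.inl k, none) => (.inr k.1, k.2)
    | (.inl k, some j) => (.inl k, some j)
    | (.inr i, o) => (.inl (i, o), none)
  invFun x := match x with
    | (.inl k, none) => (.inr k.1, k.2)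
    | (.inl k, some j) => (.inl k, some j)
    | (.inr i, o) => (.inl (i, o), none)
  left_inv x := by rcases x with ⟨⟨i, o⟩ | i, _ | j⟩ <;> rfl
  right_inv x := by rcases x with ⟨⟨i, o⟩ | i, _ | j⟩ <;> rfl

namespace Datum
variable {D : Datum}

section
variable {ι : Type} [Fintype ι] {K Z : LC}

variable (D) in
/-- rearrangement in the domain -/
def cfConjA (κ ι : Type) [Fintype κ] [Fintype ι] (K : LC) :
    (D.A (κ ⊕ ι)).prod ((D.A ι).prod K) ≃ₜ ((D.A ι).prod (D.A ι)).prod ((D.A κ).prod K) :=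
  ((D.splitA κ ι).prodCongr (Homeomorph.refl ((D.A ι).prod K))).trans
    (cfR (D.A κ) (D.A ι) (D.A ι) K)

variable (D) in
/-- exchange of the two copies of `A ι` -/
def cfThA (κ ι : Type) [Fintype κ] [Fintype ι] (K : LC) :
    (D.A (κ ⊕ ι)).prod ((D.A ι).prod K) ≃ₜ (D.A (κ ⊕ ι)).prod ((D.A ι).prod K) :=
  (D.cfConjA κ ι K).trans (((LC.swap (D.A ι) (D.A ι)).prodCongr
    (Homeomorph.refl ((D.A κ).prod K))).trans (D.cfConjA κ ι K).symm)

theorem cfThA_homotopic (κ ι : Type) [Fintype κ] [Fintype ι] (K : LC) :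
    (PMap.ofHomeo (D.cfThA κ ι K)).Homotopic (PMap.id _) :=
  conj_homotopic (D.cfConjA κ ι K) (prod_homotopic (P := (D.A ι).prod (D.A ι))
    (Q := (D.A κ).prod K) (rotX (ι × Option D.w)) (PMap.Homotopic.refl _))

variable (D) in
/-- rearrangement in the target -/
def cfConjB (κ ι : Type) [Fintype κ] [Fintype ι] (Z : LC) :
    (D.B (κ ⊕ ι)).prod (((LC.cpow (ι × Option D.u)).prod LC.point).prod Z) ≃ₜ
    (((LC.cpow (ι × Option D.u)).prod (LC.cpow (ι × Option D.u))).prod
      (LC.G ((κ ⊕ ι) × Option D.a))).prod ((LC.cpow (κ × Option D.u)).prod (LC.point.prod Z)) :=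
  (((splitC κ ι (Option D.u)).prodCongr (Homeomorph.refl (LC.G ((κ ⊕ ι) × Option D.a)))).prodCongr
    (Homeomorph.refl (((LC.cpow (ι × Option D.u)).prod LC.point).prod Z))).trans
    (cfQ (LC.cpow (κ × Option D.u)) (LC.cpow (ι × Option D.u)) (LC.G ((κ ⊕ ι) × Option D.a))
      (LC.cpow (ι × Option D.u)) LC.point Z)

variable (D) in
/-- exchange of the two copies of `B ι` -/
def cfThB (ι : Type) [Fintype ι] (Z : LC) :
    (D.B ((ι × Option D.a) ⊕ ι)).prod (((LC.cpow (ι × Option D.u)).prod LC.point).prod Z) ≃ₜ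
    (D.B ((ι × Option D.a) ⊕ ι)).prod (((LC.cpow (ι × Option D.u)).prod LC.point).prod Z) :=
  (D.cfConjB (ι × Option D.a) ι Z).trans
    ((((LC.swap (LC.cpow (ι × Option D.u)) (LC.cpow (ι × Option D.u))).prodCongr
      (GK.reindex (cfTau ι D.a))).prodCongr
      (Homeomorph.refl ((LC.cpow ((ι × Option D.a) × Option D.u)).prod (LC.point.prod Z)))).trans
    (D.cfConjB (ι × Option D.a) ι Z).symm)

theorem cfThB_homotopic (ι : Type) [Fintype ι] (Z : LC) :
    (PMap.ofHomeo (D.cfThB ι Z)).Homotopic (PMap.id _) :=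
  conj_homotopic (D.cfConjB (ι × Option D.a) ι Z)
    (prod_homotopic (P := ((LC.cpow (ι × Option D.u)).prod (LC.cpow (ι × Option D.u))).prod
      (LC.G (((ι × Option D.a) ⊕ ι) × Option D.a)))
      (Q := (LC.cpow ((ι × Option D.a) × Option D.u)).prod (LC.point.prod Z))
      (prod_homotopic (P := (LC.cpow (ι × Option D.u)).prod (LC.cpow (ι × Option D.u)))
        (Q := LC.G (((ι × Option D.a) ⊕ ι) × Option D.a))
        (rotX (ι × Option D.u)) (rotG (cfTau ι D.a))) (PMap.Homotopic.refl _))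

/-- the representative of the left side -/
def cfL (F : D.Rep ι K Z) : D.Rep (ι × Option D.a) ((D.A ι).prod K)
    (((LC.cpow (ι × Option D.u)).prod LC.point).prod Z) :=
  Rep.pre F ((Rep.ltens (LC.cpow (ι × Option D.u)) (Rep.taut D (ι × Option D.a))).tens Z)

variable (D) in
/-- the representative of the class of the product of `id × s` -/
def cfS (ι : Type) [Fintype ι] : D.Rep (ι × Option D.a) (D.A ι)
    ((LC.cpow (ι × Option D.u)).prod LC.point) :=
  Rep.pre (D.shat ι) (Rep.ltens (LC.cpow (ι × Option D.u)) (Rep.taut D (ι × Option D.a)))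

/-- the representative of the right side -/
def cfRR (F : D.Rep ι K Z) : D.Rep ((ι × Option D.a) ⊕ ι) ((D.A ι).prod K)
    (((LC.cpow (ι × Option D.u)).prod LC.point).prod Z) :=
  ((D.cfS ι).tens K).cmp (Rep.ltens ((LC.cpow (ι × Option D.u)).prod LC.point) F)

theorem cfL_val (F : D.Rep ι K Z) (v : D.A (ι × Option D.a)) (a : D.A ι) (k : K) :
    cfL F (v, (a, k)) = bnd (F (a, k)) (fun p => bnd (D.shatG (ι × Option D.a) (v, p.1.2))
      (fun b => (((b, ((p.1.1, PUnit.unit), p.2)) :
        D.B (ι × Option D.a) × (((ι × Option D.u → ℂ) × PUnit) × Z)) : OnePoint _))) := by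
  unfold cfL
  rw [pre_val]
  rcases F (a, k) with _ | ⟨⟨y, P⟩, z⟩
  · rfl
  · change (Rep.ltens (LC.cpow (ι × Option D.u)) (Rep.taut D (ι × Option D.a))).tens Z
      (v, ((y, P), z)) = bnd (D.shatG (ι × Option D.a) (v, P)) _
    rw [tens_val, ltens_val, taut_val]
    rcases D.shatG (ι × Option D.a) (v, P) with _ | b
    · rfl
    · rfl

theorem cfS_val (v : D.A (ι × Option D.a)) (a : D.A ι) :
    D.cfS ι (v, a) = bnd (D.shat ι a) (fun p => bnd (D.shatG (ι × Option D.a) (v, p.2))
      (fun b => (((b, (p.1, PUnit.unit)) :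
        D.B (ι × Option D.a) × ((ι × Option D.u → ℂ) × PUnit)) : OnePoint _))) := by
  unfold cfS
  rw [pre_val]
  rcases D.shat ι a with _ | ⟨y, P⟩
  · rfl
  · change Rep.ltens (LC.cpow (ι × Option D.u)) (Rep.taut D (ι × Option D.a))
      (v, (y, P)) = bnd (D.shatG (ι × Option D.a) (v, P)) _
    rw [ltens_val, taut_val]
    rcases D.shatG (ι × Option D.a) (v, P) with _ | b
    · rfl
    · rfl

theorem cfRR_val (F : D.Rep ι K Z) (v : D.A ((ι × Option D.a) ⊕ ι)) (a : D.A ι) (k : K) :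
    cfRR F (v, (a, k)) = bnd (D.shat ι a) (fun p =>
      bnd (D.shatG (ι × Option D.a) ((D.splitA (ι × Option D.a) ι v).1, p.2)) (fun b =>
      bnd (F ((D.splitA (ι × Option D.a) ι v).2, k)) (fun q =>
      (((D.mulBFun (ι × Option D.a) ι (b, q.1), ((p.1, PUnit.unit), q.2)) :
        D.B ((ι × Option D.a) ⊕ ι) × (((ι × Option D.u → ℂ) × PUnit) × Z)) : OnePoint _)))) := by
  unfold cfRR
  rw [cmp_val, tens_val, cfS_val]
  rcases D.shat ι a with _ | ⟨y, P⟩
  · rfl
  · change bnd (bnd (bnd (D.shatG (ι × Option D.a) ((D.splitA (ι × Option D.a) ι v).1, P)) _) _) _ =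
      bnd (D.shatG (ι × Option D.a) ((D.splitA (ι × Option D.a) ι v).1, P)) _
    rcases D.shatG (ι × Option D.a) ((D.splitA (ι × Option D.a) ι v).1, P) with _ | b
    · rfl
    · change bnd (Rep.ltens ((LC.cpow (ι × Option D.u)).prod LC.point) F
        ((D.splitA (ι × Option D.a) ι v).2, ((y, PUnit.unit), k))) _ =
        bnd (F ((D.splitA (ι × Option D.a) ι v).2, k)) _
      rw [ltens_val]
      rcases F ((D.splitA (ι × Option D.a) ι v).2, k) with _ | q
      · rfl
      · rfl

/-- the exchange on a product -/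
theorem cfThB_val (b b' : D.B (ι × Option D.a)) (c c' : D.B ι) (z : Z)
    (h1 : b.1 = b'.1)
    (Q : GK ((ι × Option D.a) × D.a))
    (h2 : b.2 = GK.reindex (optEquiv (ι × Option D.a) D.a) (GK.sum (c.2, Q)))
    (h3 : b'.2 = GK.reindex (optEquiv (ι × Option D.a) D.a) (GK.sum (c'.2, Q))) :
    D.cfThB ι Z (D.mulBFun (ι × Option D.a) ι (b, c'), ((c.1, PUnit.unit), z)) =
      (D.mulBFun (ι × Option D.a) ι (b', c), ((c'.1, PUnit.unit), z)) := by
  obtain ⟨b1, b2⟩ := b
  obtain ⟨b1', b2'⟩ := b'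
  obtain ⟨c1, c2⟩ := c
  obtain ⟨c1', c2'⟩ := c'
  dsimp only at h1 h2 h3
  subst h1 h2 h3
  refine Prod.ext (Prod.ext ?_ (GK.ext ?_)) rfl
  · funext x
    rcases x with ⟨i | i, j⟩ <;> rfl
  · rintro ⟨⟨⟨i, o⟩ | i, _ | j⟩, e⟩ ⟨⟨⟨i', o'⟩ | i', _ | j'⟩, e'⟩ <;> rfl

theorem cfRR_eq (F : D.Rep ι K Z) : cfRR F = (PMap.ofHomeo (D.cfThB ι Z)).comp
    (PMap.comp ((cfL F).stab ι) (PMap.ofHomeo (D.cfThA (ι × Option D.a) ι K))) := by
  ext ⟨v, a, k⟩
  change _ = bnd ((cfL F).stab ι ((D.splitA (ι × Option D.a) ι).symm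
    ((D.splitA (ι × Option D.a) ι v).1, a), ((D.splitA (ι × Option D.a) ι v).2, k)))
    (fun p => ((D.cfThB ι Z p : (D.B ((ι × Option D.a) ⊕ ι)).prod
      (((LC.cpow (ι × Option D.u)).prod LC.point).prod Z)) :
      OnePoint ((D.B ((ι × Option D.a) ⊕ ι)).prod
      (((LC.cpow (ι × Option D.u)).prod LC.point).prod Z))))
  rw [cfRR_val, stab_val, Homeomorph.apply_symm_apply, cfL_val]
  dsimp only
  rcases hF : F ((D.splitA (ι × Option D.a) ι v).2, k) with _ | ⟨c, z⟩
  · rcases D.shat ι a with _ | ⟨y, P⟩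
    · rfl
    · change bnd (D.shatG (ι × Option D.a) ((D.splitA (ι × Option D.a) ι v).1, P)) _ = _
      rcases D.shatG (ι × Option D.a) ((D.splitA (ι × Option D.a) ι v).1, P) with _ | b
      · rfl
      · rfl
  · rcases D.shatG_cases (ι × Option D.a) (D.splitA (ι × Option D.a) ι v).1 with
      ⟨i, hi⟩ | ⟨y, hy⟩
    · have h1 : ∀ P, D.shatG (ι × Option D.a) ((D.splitA (ι × Option D.a) ι v).1, P) =
        OnePoint.infty := fun P => D.shatG_none _ _ P i hi
      rcases D.shat ι a with _ | ⟨y', P⟩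
      · change _ = bnd (bnd (bnd (D.shatG (ι × Option D.a)
          ((D.splitA (ι × Option D.a) ι v).1, c.2)) _) _) _
        rw [h1]
        rfl
      · change bnd (D.shatG (ι × Option D.a) ((D.splitA (ι × Option D.a) ι v).1, P)) _ =
          bnd (bnd (bnd (D.shatG (ι × Option D.a)
          ((D.splitA (ι × Option D.a) ι v).1, c.2)) _) _) _
        rw [h1, h1]
        rfl
    · have h1 := fun P => D.shatG_some _ (D.splitA (ι × Option D.a) ι v).1 P y hy
      rcases D.shat ι a with _ | c'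
      · change _ = bnd (bnd (bnd (D.shatG (ι × Option D.a)
          ((D.splitA (ι × Option D.a) ι v).1, c.2)) _) _) _
        rw [h1]
        rfl
      · change bnd (D.shatG (ι × Option D.a) ((D.splitA (ι × Option D.a) ι v).1, c'.2)) _ =
          bnd (bnd (bnd (D.shatG (ι × Option D.a)
          ((D.splitA (ι × Option D.a) ι v).1, c.2)) _) _) _
        rw [h1, h1]
        refine congrArg OnePoint.some ?_
        exact (cfThB_val (((fun x => match x.2 with
            | none => (D.splitA (ι × Option D.a) ι v).1 (x.1, none)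
            | some j => (y x.1).1 j),
          GK.reindex (optEquiv (ι × Option D.a) D.a) (GK.sum (c.2, blockDiag fun i => (y i).2))) :
            D.B (ι × Option D.a)) (((fun x => match x.2 with
            | none => (D.splitA (ι × Option D.a) ι v).1 (x.1, none)
            | some j => (y x.1).1 j),
          GK.reindex (optEquiv (ι × Option D.a) D.a) (GK.sum (c'.2, blockDiag fun i => (y i).2))) :
            D.B (ι × Option D.a)) c c' z rfl (blockDiag fun i => (y i).2) rfl rfl).symm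

theorem cfRR_homotopic (F : D.Rep ι K Z) : PMap.Homotopic (cfRR F) ((cfL F).stab ι) := by
  rw [cfRR_eq]
  have h1 := (cfThB_homotopic (D := D) ι Z).comp
    (PMap.Homotopic.comp_right ((cfL F).stab ι) (cfThA_homotopic (D := D) (ι × Option D.a) ι K))
  rw [PMap.comp_id, PMap.id_comp] at h1
  exact h1

end

end Datum

/-! ### In the localised theory -/

namespace LocTheory
variable {D : Datum} (T : LocTheory D)

theorem cf_pre {ι : Type} [Fintype ι] {K L Z : LC} (φ : PMap K L.plus) (f : D.Rep ι L Z) :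
    T.comp (T.J φ) (T.cls f) = T.cls (Datum.Rep.pre φ f) := by
  rw [T.J_eq PEmpty, T.comp_cls, Datum.ofMap_cmp, T.cls_re, T.cls_stab]

theorem cf_post {ι : Type} [Fintype ι] {K L Z : LC} (f : D.Rep ι K L) (ψ : PMap L Z.plus) :
    T.comp (T.cls f) (T.J ψ) = T.cls (f.post ψ) := by
  rw [T.J_eq PEmpty, T.comp_cls, Datum.cmp_ofMap, T.cls_stab]

theorem cf_ltens {ι : Type} [Fintype ι] {K L : LC} (W : LC) (f : D.Rep ι K L) :
    T.ltens W (T.cls f) = T.cls (Datum.Rep.ltens W f) := by
  unfold BivData.ltens Datum.Rep.ltens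
  rw [T.tens_cls, cf_post, cf_pre]

/-- (CF) A representative `F : A ι × K → B ι × Z` of `x`, considered as a map, is `ŝ_ι × x`. -/
theorem cf_main {ι : Type} [Fintype ι] {K Z : LC} (F : D.Rep ι K Z) :
    T.comp (T.J F) (T.tens (T.ltens (LC.cpow (ι × Option D.u)) (T.g (ι × Option D.a))) Z) =
      T.comp (T.tens (T.comp (T.J (D.shat ι))
        (T.ltens (LC.cpow (ι × Option D.u)) (T.g (ι × Option D.a)))) K)
        (T.ltens ((LC.cpow (ι × Option D.u)).prod LC.point) (T.cls F)) := by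
  rw [T.g_eq, cf_ltens, T.tens_cls, cf_pre, cf_pre, T.tens_cls, cf_ltens, T.comp_cls]
  have h1 := T.cls_homotopic (Datum.cfRR_homotopic F)
  rw [T.cls_stab] at h1
  exact h1.symm

end LocTheory

end Pool.Agent.Helper1.Stab
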