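import Pool.Agent.Helper1.Stab.Defs

/-! # The topology of `BG D` (packet SHC ST) -/

set_option autoImplicit false

open Topology Filter Set unitInterval

noncomputable section

namespace Pool.Agent.Helper93.Stab

open Pool.Agent.Helper1.Stab

/-- The property defining the frames. -/
def FP (k : ℕ) (A : ℕ → ℕ → ℂ) : Prop :=
  (∀ i j, (2 * k ≤ i ∨ k ≤ j) → A i j = if i = 2 * j then 1 else 0) ∧
  ∀ j < k, ∀ j' < k, ∑ i ∈ Finset.range (2 * k), star (A i j) * A i j' = if j = j' then 1 else 0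

theorem FP_mono {k N : ℕ} (h : k ≤ N) {A : ℕ → ℕ → ℂ} (hA : FP k A) : FP N A := by
  induction N, h using Nat.le_induction with
  | base => exact hA
  | succ n hn ih => exact (Frame.incl ⟨A, ih⟩).2

/-- The frame seen as a frame of larger size. -/
def up {k N : ℕ} (h : k ≤ N) (A : Frame k) : Frame N := ⟨A.1, FP_mono h A.2⟩

theorem mk_up (D : Set ℂ) {k N : ℕ} (h : k ≤ N) (A : Frame k) :
    (Quot.mk (BRel D) ⟨k, A⟩ : BG D) = Quot.mk (BRel D) ⟨N, up h A⟩ := by
  induction N, h using Nat.le_induction with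
  | base => rfl
  | succ n hn ih =>
    rw [ih]
    exact Quot.sound (BRel.stab (up hn A))

/-- `B = A g` for a unitary matrix `g` with determinant in `D`. -/
def MR (D : Set ℂ) (N : ℕ) (A B : ℕ → ℕ → ℂ) : Prop :=
  ∃ g ∈ Matrix.unitaryGroup (Fin N) ℂ, Matrix.det g ∈ D ∧
    ∀ (i : ℕ) (j : Fin N), B i j = ∑ l : Fin N, A i l * g l j

/-- `D` is a closed group of numbers of modulus one, or everything. -/
structure DG (D : Set ℂ) : Prop where
  one : (1 : ℂ) ∈ D
  star : ∀ z ∈ D, star z ∈ D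
  mul : ∀ z ∈ D, ∀ w ∈ D, z * w ∈ D
  closed : IsClosed D

theorem DG_univ : DG Set.univ := ⟨mem_univ _, fun _ _ => mem_univ _, fun _ _ _ _ => mem_univ _,
  isClosed_univ⟩

theorem DG_one : DG {1} := ⟨rfl, fun z hz => by rw [mem_singleton_iff.1 hz]; simp,
  fun z hz w hw => by rw [mem_singleton_iff.1 hz, mem_singleton_iff.1 hw]; simp,
  isClosed_singleton⟩

theorem MR_refl {D : Set ℂ} (hD : DG D) (N : ℕ) (A : ℕ → ℕ → ℂ) : MR D N A A := by
  refine ⟨1, one_mem _, ?_, fun i j => ?_⟩
  · rw [Matrix.det_one]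
    exact hD.one
  · simp [Matrix.one_apply]

theorem MR_trans {D : Set ℂ} (hD : DG D) {N : ℕ} {A B C : ℕ → ℕ → ℂ} (h1 : MR D N A B)
    (h2 : MR D N B C) : MR D N A C := by
  obtain ⟨g, hg, hgd, hgB⟩ := h1
  obtain ⟨h, hh, hhd, hhC⟩ := h2
  refine ⟨g * h, mul_mem hg hh, ?_, fun i j => ?_⟩
  · rw [Matrix.det_mul]
    exact hD.mul _ hgd _ hhd
  · rw [hhC]
    simp only [hgB, Matrix.mul_apply, Finset.sum_mul, Finset.mul_sum]
    rw [Finset.sum_comm]
    exact Finset.sum_congr rfl fun l _ => Finset.sum_congr rfl fun l' _ => by ring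

theorem MR_symm {D : Set ℂ} (hD : DG D) {N : ℕ} {A B : ℕ → ℕ → ℂ} (h1 : MR D N A B) :
    MR D N B A := by
  obtain ⟨g, hg, hgd, hgB⟩ := h1
  have h1 : g * star g = 1 := (Matrix.mem_unitaryGroup_iff).1 hg
  have h2 : star g * g = 1 := (Matrix.mem_unitaryGroup_iff').1 hg
  refine ⟨star g, (Matrix.mem_unitaryGroup_iff).2 (by rw [star_star]; exact h2), ?_,
    fun i j => ?_⟩
  · rw [Matrix.star_eq_conjTranspose, Matrix.det_conjTranspose]
    exact hD.star _ hgd
  · simp only [hgB, Finset.sum_mul]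
    rw [Finset.sum_comm]
    have e2 : ∀ l' : Fin N, ∑ l : Fin N, A i l' * g l' l * (star g) l j =
        A i l' * (if l' = j then 1 else 0) := by
      intro l'
      have := congrFun (congrFun h1 l') j
      rw [Matrix.mul_apply, Matrix.one_apply] at this
      rw [← this, Finset.mul_sum]
      refine Finset.sum_congr rfl fun l _ => ?_
      ring
    simp only [e2]
    simp

theorem sum_std {k : ℕ} (A : Frame k) (d : ℕ) : (A.sum (Frame.std d)).1 = A.1 := by
  funext i j
  show (if j < k then A.1 i j else if i < 2 * k then 0 else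
    (if i - 2 * k = 2 * (j - k) then (1 : ℂ) else 0)) = A.1 i j
  by_cases h1 : j < k
  · rw [if_pos h1]
  · rw [if_neg h1, A.2.1 i j (Or.inr (by omega))]
    by_cases h2 : i < 2 * k
    · rw [if_pos h2, if_neg (by omega)]
    · rw [if_neg h2]
      by_cases h3 : i = 2 * j
      · rw [if_pos h3, if_pos (by omega)]
      · rw [if_neg h3, if_neg (by omega)]

theorem MR_add {D : Set ℂ} {k : ℕ} {A B : ℕ → ℕ → ℂ} (hA : FP k A) (hB : FP k B) (d : ℕ)
    (h : MR D k A B) : MR D (k + d) A B := by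
  obtain ⟨g, hg, hgd, hgB⟩ := h
  have := frameRel_sum (D := D) (B := ⟨A, hA⟩) (B' := ⟨B, hB⟩) (A := Frame.std d)
    (A' := Frame.std d) (g := g) (h := 1) hg (one_mem _) (by rwa [Matrix.det_one, mul_one]) hgB
    (fun i j => by simp [Matrix.one_apply])
  change MR D (k + d) _ _ at this
  rwa [sum_std, sum_std] at this

theorem MR_mono {D : Set ℂ} {k N : ℕ} (hk : k ≤ N) {A B : ℕ → ℕ → ℂ} (hA : FP k A) (hB : FP k B)
    (h : MR D k A B) : MR D N A B := by
  obtain ⟨d, rfl⟩ := Nat.exists_eq_add_of_le hk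
  exact MR_add hA hB d h

/-- Cancellation. -/
theorem MR_sub {D : Set ℂ} {k : ℕ} {A B : ℕ → ℕ → ℂ} (hA : FP k A) (hB : FP k B) (d : ℕ)
    (h : MR D (k + d) A B) : MR D k A B := by
  obtain ⟨g, hg, hgd, hgB⟩ := h
  have hA' : FP (k + d) A := FP_mono (by omega) hA
  have key : ∀ l j : Fin (k + d), g l j =
      ∑ i ∈ Finset.range (2 * (k + d)), star (A i l) * B i j := by
    intro l j
    simp only [hgB, Finset.mul_sum]
    rw [Finset.sum_comm, Finset.sum_eq_single l]
    · have := hA'.2 l l.2 l l.2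
      rw [if_pos rfl] at this
      have e : ∀ i, star (A i l) * (A i l * g l j) = star (A i l) * A i l * g l j := fun i => by
        ring
      simp only [e]
      rw [← Finset.sum_mul, this, one_mul]
    · intro m _ hm
      have := hA'.2 l l.2 m m.2
      rw [if_neg (fun h => hm (Fin.ext h.symm))] at this
      have e : ∀ i, star (A i l) * (A i m * g m j) = star (A i l) * A i m * g m j := fun i => by
        ring
      simp only [e]
      rw [← Finset.sum_mul, this, zero_mul]
    · intro h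
      exact absurd (Finset.mem_univ _) h
  have k1 : ∀ (l : Fin (k + d)) (j : Fin d), g l (Fin.natAdd k j) =
      if l = Fin.natAdd k j then 1 else 0 := by
    intro l j
    rw [key, Finset.sum_eq_single (2 * ((Fin.natAdd k j : Fin (k + d)) : ℕ))]
    · rw [hB.1 _ _ (Or.inr (by simp)), if_pos rfl, mul_one, hA.1 _ _ (Or.inl (by simp))]
      by_cases h : l = Fin.natAdd k j
      · subst h
        simp
      · have h' : ¬ (2 * ((Fin.natAdd k j : Fin (k + d)) : ℕ) = 2 * (l : ℕ)) := fun h2 =>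
          h (Fin.ext (by omega))
        rw [if_neg h', if_neg h, star_zero]
    · intro i _ hi
      rw [hB.1 _ _ (Or.inr (by simp)), if_neg hi, mul_zero]
    · intro h
      exact absurd (Finset.mem_range.2 (by have := (Fin.natAdd k j : Fin (k + d)).2; omega)) h
  have k2 : ∀ (l : Fin d) (j : Fin k), g (Fin.natAdd k l) (Fin.castAdd d j) = 0 := by
    intro l j
    rw [key]
    refine Finset.sum_eq_zero fun i _ => ?_
    rw [hA.1 i _ (Or.inr (by simp))]
    by_cases hi : i = 2 * ((Fin.natAdd k l : Fin (k + d)) : ℕ)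
    · have hne : ¬ i = 2 * ((Fin.castAdd d j : Fin (k + d)) : ℕ) := by
        have h1 : ((Fin.natAdd k l : Fin (k + d)) : ℕ) = k + l := rfl
        have h2 : ((Fin.castAdd d j : Fin (k + d)) : ℕ) = j := rfl
        have := j.2
        omega
      rw [hB.1 i _ (Or.inl (by rw [hi]; simp)), if_neg hne, mul_zero]
    · rw [if_neg hi, star_zero, zero_mul]
  have k3 : ∀ (l : Fin k) (j : Fin d), g (Fin.castAdd d l) (Fin.natAdd k j) = 0 := by
    intro l j
    rw [k1, if_neg]
    intro h
    have := congrArg Fin.val h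
    simp at this
    have := l.2
    omega
  set g' : Matrix (Fin k) (Fin k) ℂ := fun a b => g (Fin.castAdd d a) (Fin.castAdd d b) with hg'
  have hblock : g = Matrix.reindex finSumFinEquiv finSumFinEquiv (Matrix.fromBlocks g' 0 0 1) := by
    ext l j
    refine Fin.addCases (fun l0 => ?_) (fun l0 => ?_) l <;>
      refine Fin.addCases (fun j0 => ?_) (fun j0 => ?_) j
    · simp [hg']
    · rw [k3]
      simp
    · rw [k2]
      simp
    · rw [k1]
      simp [Matrix.one_apply, Fin.ext_iff]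
  refine ⟨g', ?_, ?_, fun i j => ?_⟩
  · rw [Matrix.mem_unitaryGroup_iff]
    have h1 : g * star g = 1 := (Matrix.mem_unitaryGroup_iff).1 hg
    ext a b
    have h2 := congrFun (congrFun h1 (Fin.castAdd d a)) (Fin.castAdd d b)
    rw [Matrix.mul_apply, Fin.sum_univ_add] at h2
    simp only [k3, zero_mul, Finset.sum_const_zero, add_zero] at h2
    rw [Matrix.mul_apply]
    rw [Matrix.one_apply] at h2 ⊢
    have e : (Fin.castAdd d a = Fin.castAdd d b) ↔ a = b := by
      simp [Fin.ext_iff]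
    simp only [e] at h2
    rw [← h2]
    rfl
  · rw [hblock, Matrix.det_reindex_self, Matrix.det_fromBlocks_zero₂₁, Matrix.det_one,
      mul_one] at hgd
    exact hgd
  · have h2 := hgB i (Fin.castAdd d j)
    rw [Fin.sum_univ_add] at h2
    simp only [k2, mul_zero, Finset.sum_const_zero, add_zero] at h2
    exact h2

theorem MR_down {D : Set ℂ} {k N : ℕ} (hk : k ≤ N) {A B : ℕ → ℕ → ℂ} (hA : FP k A) (hB : FP k B)
    (h : MR D N A B) : MR D k A B := by
  obtain ⟨d, rfl⟩ := Nat.exists_eq_add_of_le hk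
  exact MR_sub hA hB d h

/-- The projection to `BG D`. -/
def bq (D : Set ℂ) (A : Σ k, Frame k) : BG D := Quot.mk _ A

theorem isQuotientMap_bq (D : Set ℂ) : IsQuotientMap (bq D) := isQuotientMap_quot_mk

theorem bq_surj (D : Set ℂ) (x : BG D) : ∃ (l : ℕ) (A : Frame l), bq D ⟨l, A⟩ = x := by
  induction x using Quot.ind with
  | mk A => exact ⟨A.1, A.2, rfl⟩

theorem bq_continuous (D : Set ℂ) (l : ℕ) : Continuous fun A : Frame l => bq D ⟨l, A⟩ :=
  (isQuotientMap_bq D).continuous.comp continuous_sigmaMk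

theorem bq_up (D : Set ℂ) {k N : ℕ} (h : k ≤ N) (A : Frame k) :
    bq D ⟨k, A⟩ = bq D ⟨N, up h A⟩ := mk_up D h A

/-- The classes of `BG D`. -/
theorem eqvGen_MR {D : Set ℂ} (hD : DG D) {x y : Σ k, Frame k}
    (h : Relation.EqvGen (BRel D) x y) : ∃ N, x.1 ≤ N ∧ y.1 ≤ N ∧ MR D N x.2.1 y.2.1 := by
  induction h with
  | rel x y h =>
    cases h with
    | @rot k A B h => exact ⟨k, le_rfl, le_rfl, h⟩
    | @stab k A => exact ⟨k + 1, Nat.le_succ _, le_rfl, MR_refl hD _ _⟩
  | refl x => exact ⟨x.1, le_rfl, le_rfl, MR_refl hD _ _⟩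
  | symm x y _ ih =>
    obtain ⟨N, h1, h2, h3⟩ := ih
    exact ⟨N, h2, h1, MR_symm hD h3⟩
  | trans x y z _ _ ih1 ih2 =>
    obtain ⟨N, h1, h2, h3⟩ := ih1
    obtain ⟨N', h1', h2', h3'⟩ := ih2
    refine ⟨max N N', h1.trans (le_max_left _ _), h2'.trans (le_max_right _ _),
      MR_trans hD (MR_mono (le_max_left _ _) (FP_mono h1 x.2.2) (FP_mono h2 y.2.2) h3)
        (MR_mono (le_max_right _ _) (FP_mono h1' y.2.2) (FP_mono h2' z.2.2) h3')⟩

theorem bq_eq {D : Set ℂ} (hD : DG D) {k l : ℕ} (A : Frame k) (B : Frame l) :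
    bq D ⟨k, A⟩ = bq D ⟨l, B⟩ ↔ MR D (max k l) A.1 B.1 := by
  constructor
  · intro h
    obtain ⟨N, h1, h2, h3⟩ := eqvGen_MR hD (Quot.eqvGen_exact h)
    exact MR_down (max_le h1 h2) (FP_mono (le_max_left _ _) A.2) (FP_mono (le_max_right _ _) B.2) h3
  · intro h
    rw [bq_up D (le_max_left k l) A, bq_up D (le_max_right k l) B]
    exact Quot.sound (BRel.rot h)

/-- Two frames have the same class in `BG D` if and only if they are related in a common size. -/
theorem mk_eq {D : Set ℂ} (hD : DG D) {k l : ℕ} (A : Frame k) (B : Frame l) :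
    (Quot.mk (BRel D) ⟨k, A⟩ : BG D) = Quot.mk (BRel D) ⟨l, B⟩ ↔ MR D (max k l) A.1 B.1 :=
  bq_eq hD A B

/-- Two frames of the same size have the same class in `BG D` if and only if they are related. -/
theorem mk_eq_iff {D : Set ℂ} (hD : DG D) {k : ℕ} (A B : Frame k) :
    (Quot.mk (BRel D) ⟨k, A⟩ : BG D) = Quot.mk (BRel D) ⟨k, B⟩ ↔ FrameRel D k A B := by
  rw [mk_eq hD, max_self]
  exact Iff.rfl

/-! ### Closed sets -/

theorem isCompact_unitary (D : Set ℂ) (hD : IsClosed D) (N : ℕ) :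
    IsCompact {g : Matrix (Fin N) (Fin N) ℂ | g ∈ Matrix.unitaryGroup (Fin N) ℂ ∧
      Matrix.det g ∈ D} := by
  have h1 : IsCompact {g : Matrix (Fin N) (Fin N) ℂ | ∀ i, g i ∈ {a : Fin N → ℂ | ∀ j, a j ∈
      Metric.closedBall (0 : ℂ) 1}} :=
    isCompact_pi_infinite fun _ => isCompact_pi_infinite fun _ => isCompact_closedBall 0 1
  refine h1.of_isClosed_subset ?_ ?_
  · have c1 : Continuous fun g : Matrix (Fin N) (Fin N) ℂ => g * star g := by
      refine Continuous.matrix_mul continuous_id ?_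
      exact Continuous.matrix_conjTranspose continuous_id
    have c2 : Continuous fun g : Matrix (Fin N) (Fin N) ℂ => Matrix.det g :=
      Continuous.matrix_det continuous_id
    have e : {g : Matrix (Fin N) (Fin N) ℂ | g ∈ Matrix.unitaryGroup (Fin N) ℂ ∧
        Matrix.det g ∈ D} = {g | g * star g = 1} ∩ {g | Matrix.det g ∈ D} := by
      ext g
      simp only [mem_ofPred_eq, mem_inter_iff, Matrix.mem_unitaryGroup_iff]
    rw [e]
    exact (isClosed_eq c1 continuous_const).inter (hD.preimage c2)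
  · rintro g ⟨hg, -⟩ i j
    rw [mem_closedBall_zero_iff]
    exact entry_norm_bound_of_unitary hg i j

theorem isClosed_MR {D : Set ℂ} (hD : IsClosed D) {l m N : ℕ} (K : Set (Frame l))
    (hK : IsClosed K) : IsClosed {A : Frame m | ∃ B ∈ K, MR D N B.1 A.1} := by
  have hc : IsCompact ((univ : Set (Frame m)) ×ˢ (K ×ˢ {g : Matrix (Fin N) (Fin N) ℂ |
      g ∈ Matrix.unitaryGroup (Fin N) ℂ ∧ Matrix.det g ∈ D})) :=
    isCompact_univ.prod (hK.isCompact.prod (isCompact_unitary D hD N))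
  have ha : ∀ i j : ℕ, Continuous fun p : Frame m × (Frame l × Matrix (Fin N) (Fin N) ℂ) =>
      p.1.1 i j := fun i j => (continuous_apply j).comp ((continuous_apply i).comp
        (continuous_subtype_val.comp continuous_fst))
  have hb : ∀ i j : ℕ, Continuous fun p : Frame m × (Frame l × Matrix (Fin N) (Fin N) ℂ) =>
      p.2.1.1 i j := fun i j => (continuous_apply j).comp ((continuous_apply i).comp
        (continuous_subtype_val.comp (continuous_fst.comp continuous_snd)))
  have hg : ∀ i j : Fin N, Continuous fun p : Frame m × (Frame l × Matrix (Fin N) (Fin N) ℂ) =>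
      p.2.2 i j := fun i j => (continuous_apply j).comp ((continuous_apply i).comp
        (continuous_snd.comp continuous_snd))
  have hcl : IsClosed {p : Frame m × (Frame l × Matrix (Fin N) (Fin N) ℂ) |
      ∀ (i : ℕ) (j : Fin N), p.1.1 i j = ∑ t : Fin N, p.2.1.1 i t * p.2.2 t j} := by
    simp only [ofPred_forall]
    refine isClosed_iInter fun i => isClosed_iInter fun j => isClosed_eq (ha i j) ?_
    exact continuous_finsetSum _ fun t _ => (hb i t).mul (hg t j)
  have h2 := (hc.inter_right hcl).image continuous_fst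
  have e : {A : Frame m | ∃ B ∈ K, MR D N B.1 A.1} = Prod.fst ''
      (((univ : Set (Frame m)) ×ˢ (K ×ˢ {g : Matrix (Fin N) (Fin N) ℂ |
      g ∈ Matrix.unitaryGroup (Fin N) ℂ ∧ Matrix.det g ∈ D})) ∩
      {p : Frame m × (Frame l × Matrix (Fin N) (Fin N) ℂ) |
      ∀ (i : ℕ) (j : Fin N), p.1.1 i j = ∑ t : Fin N, p.2.1.1 i t * p.2.2 t j}) := by
    ext A
    constructor
    · rintro ⟨B, hB, g, hg, hgd, h⟩
      exact ⟨(A, B, g), ⟨⟨mem_univ _, hB, hg, hgd⟩, h⟩, rfl⟩
    · rintro ⟨⟨A', B, g⟩, ⟨⟨-, hB, hg, hgd⟩, h⟩, rfl⟩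
      exact ⟨B, hB, g, hg, hgd, h⟩
  rw [e]
  exact h2.isClosed

/-- A set of classes is closed if it is in each stage. -/
theorem isClosed_BG {D : Set ℂ} {S : Set (BG D)}
    (h : ∀ m, IsClosed {A : Frame m | bq D ⟨m, A⟩ ∈ S}) : IsClosed S := by
  rw [← (isQuotientMap_bq D).isClosed_preimage, isClosed_sigma_iff]
  exact h

/-- The image of a closed set of frames is closed. -/
theorem isClosed_img {D : Set ℂ} (hD : DG D) {l : ℕ} (K : Set (Frame l)) (hK : IsClosed K) :
    IsClosed ((fun A => bq D ⟨l, A⟩) '' K) := by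
  refine isClosed_BG fun m => ?_
  have e : {A : Frame m | bq D ⟨m, A⟩ ∈ (fun A => bq D ⟨l, A⟩) '' K} =
      {A : Frame m | ∃ B ∈ K, MR D (max l m) B.1 A.1} := by
    ext A
    constructor
    · rintro ⟨B, hB, h⟩
      exact ⟨B, hB, (bq_eq hD B A).1 h⟩
    · rintro ⟨B, hB, h⟩
      exact ⟨B, hB, (bq_eq hD B A).2 h⟩
  rw [e]
  exact isClosed_MR hD.closed K hK

theorem t1_BG {D : Set ℂ} (hD : DG D) : T1Space (BG D) := by
  refine ⟨fun x => ?_⟩
  obtain ⟨l, A, rfl⟩ := bq_surj D x
  have := isClosed_img hD {A} isClosed_singleton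
  rwa [image_singleton] at this

theorem range_toBG (D : Set ℂ) (l : ℕ) : range (toBG D l) =
    (fun A : Frame l => bq D ⟨l, A⟩) '' univ := by
  rw [image_univ]
  ext x
  constructor
  · rintro ⟨y, rfl⟩
    induction y using Quot.ind with
    | mk A => exact ⟨A, rfl⟩
  · rintro ⟨A, rfl⟩
    exact ⟨Quot.mk _ A, rfl⟩

theorem isClosed_range {D : Set ℂ} (hD : DG D) (l : ℕ) : IsClosed (range (toBG D l)) := by
  rw [range_toBG]
  exact isClosed_img hD univ isClosed_univ

theorem isCompact_range' (D : Set ℂ) (l : ℕ) : IsCompact (range (toBG D l)) := by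
  have : CompactSpace (Gr D l) := inferInstanceAs (CompactSpace (Quot _))
  exact isCompact_range (toBG D l).continuous

theorem range_mono (D : Set ℂ) {l l' : ℕ} (h : l ≤ l') : range (toBG D l) ⊆ range (toBG D l') := by
  rw [range_toBG, range_toBG]
  rintro x ⟨A, -, rfl⟩
  exact ⟨up h A, mem_univ _, (bq_up D h A).symm⟩

theorem mem_range (D : Set ℂ) {l : ℕ} (A : Frame l) :
    bq D ⟨l, A⟩ ∈ range (toBG D l) := ⟨Quot.mk _ A, rfl⟩

/-! ### Half smash products -/

/-- The projection to `S^r ∧ X₊`. -/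
def sq (r : ℕ) (X : Type) [TopologicalSpace X] (a : Unit ⊕ ((Fin r → I) × X)) : Sph r X :=
  Quot.mk _ a

theorem isQuotientMap_sq (r : ℕ) (X : Type) [TopologicalSpace X] : IsQuotientMap (sq r X) :=
  isQuotientMap_quot_mk

theorem sq_inr {r : ℕ} {X : Type} [TopologicalSpace X] (u : Fin r → I) (x : X) :
    sq r X (Sum.inr (u, x)) = Sph.mk u x := rfl

theorem sq_inl {r : ℕ} {X : Type} [TopologicalSpace X] (a : Unit) :
    sq r X (Sum.inl a) = (Sph r X).pt := rfl

theorem sph_cases {r : ℕ} {X : Type} [TopologicalSpace X] (z : Sph r X) :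
    z = (Sph r X).pt ∨ ∃ (u : Fin r → I) (x : X), z = Sph.mk u x := by
  induction z using Quot.ind with
  | mk a =>
    rcases a with a | a
    · exact Or.inl rfl
    · exact Or.inr ⟨a.1, a.2, rfl⟩

open Classical in
/-- The class of a point of `pt ⊔ I^r × X`. -/
def cls {r : ℕ} {X : Type} : Unit ⊕ ((Fin r → I) × X) → Option ((Fin r → I) × X)
  | Sum.inl _ => none
  | Sum.inr y => if y.1 ∈ Cube.boundary (Fin r) then none else some y

theorem cls_eq {r : ℕ} {X : Type} [TopologicalSpace X] {a b : Unit ⊕ ((Fin r → I) × X)}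
    (h : sq r X a = sq r X b) : cls a = cls b := by
  have h1 : ∀ a b, SphRel r X a b → cls a = cls b := by
    rintro _ _ ⟨u, x, hu⟩
    unfold cls
    simp only
    rw [if_pos hu]
  exact congrArg (Quot.lift cls h1) h

theorem mk_inj {r : ℕ} {X : Type} [TopologicalSpace X] {u u' : Fin r → I} {x x' : X}
    (h : Sph.mk u x = Sph.mk u' x') (hu : Sph.mk u x ≠ (Sph r X).pt) : u = u' ∧ x = x' := by
  have hb : u ∉ Cube.boundary (Fin r) := fun hb => hu (mk_eq_pt_of_boundary u x hb)
  have hb' : u' ∉ Cube.boundary (Fin r) := fun hb' =>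
    hu (h.trans (mk_eq_pt_of_boundary u' x' hb'))
  have h1 := cls_eq (a := Sum.inr (u, x)) (b := Sum.inr (u', x')) h
  unfold cls at h1
  simp only at h1
  rw [if_neg hb, if_neg hb', Option.some_inj, Prod.mk.injEq] at h1
  exact h1

/-- A sequence of classes which leaves the stages has no accumulation point. -/
theorem isClosed_seq {D : Set ℂ} (hD : DG D) (x : ℕ → BG D) (hx : ∀ n, x n ∉ range (toBG D n))
    (L : ℕ) : IsClosed {z : BG D | ∃ m, L ≤ m ∧ z = x m} := by
  have := t1_BG hD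
  refine isClosed_BG fun k => ?_
  have e : {A : Frame k | bq D ⟨k, A⟩ ∈ {z : BG D | ∃ m, L ≤ m ∧ z = x m}} =
      ⋃ m ∈ {m : ℕ | L ≤ m ∧ m < k}, {A : Frame k | bq D ⟨k, A⟩ = x m} := by
    ext A
    simp only [mem_ofPred_eq, mem_iUnion, exists_prop]
    constructor
    · rintro ⟨m, h1, h2⟩
      refine ⟨m, ⟨h1, ?_⟩, h2⟩
      by_contra h3
      refine hx m (range_mono D (not_lt.1 h3) ?_)
      rw [← h2]
      exact mem_range D A
    · rintro ⟨m, ⟨h1, -⟩, h2⟩
      exact ⟨m, h1, h2⟩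
  rw [e]
  refine Set.Finite.isClosed_biUnion ((Set.finite_lt_nat k).subset fun m hm => hm.2) fun m _ => ?_
  exact isClosed_singleton.preimage (bq_continuous D k)

theorem isClosed_pairs {D : Set ℂ} (hD : DG D) {v : ℕ} (u : ℕ → Fin v → I) (x : ℕ → BG D)
    (hx : ∀ n, x n ∉ range (toBG D n)) (n : ℕ) :
    IsClosed {p : (Fin v → I) × BG D | ∃ m, n ≤ m ∧ p = (u m, x m)} := by
  have := t1_BG hD
  rw [← isOpen_compl_iff, isOpen_iff_forall_mem_open]
  rintro ⟨u0, x0⟩ hp
  obtain ⟨l, hl⟩ : ∃ l, x0 ∈ range (toBG D l) := by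
    obtain ⟨l, A, rfl⟩ := bq_surj D x0
    exact ⟨l, mem_range D A⟩
  set L := max n l with hL
  refine ⟨{p | p.2 ∈ {z : BG D | ∃ m, L ≤ m ∧ z = x m}}ᶜ ∩
    (⋃ m ∈ {m : ℕ | n ≤ m ∧ m < L}, {(u m, x m)})ᶜ, ?_, ?_, ?_, ?_⟩
  · rintro ⟨u1, x1⟩ ⟨h1, h2⟩ ⟨m, hm, h3⟩
    by_cases hmL : m < L
    · exact h2 (mem_biUnion (x := m) ⟨hm, hmL⟩ h3)
    · refine h1 ⟨m, not_lt.1 hmL, ?_⟩
      exact congrArg Prod.snd h3
  · refine IsOpen.inter ?_ ?_
    · rw [isOpen_compl_iff]
      exact (isClosed_seq hD x hx L).preimage continuous_snd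
    · rw [isOpen_compl_iff]
      exact Set.Finite.isClosed_biUnion ((Set.finite_lt_nat L).subset fun m hm => hm.2)
        fun m _ => isClosed_singleton
  · rintro ⟨m, hm, h3⟩
    refine hx m (range_mono D ((le_max_right n l).trans hm) ?_)
    have h4 : x0 = x m := h3
    rw [← h4]
    exact hl
  · intro h3
    simp only [mem_iUnion, exists_prop] at h3
    obtain ⟨m, hm, h4⟩ := h3
    exact hp ⟨m, hm.1, h4⟩

/-- A compact set in `S^v ∧ BG D ₊` lies over a stage. -/
theorem exists_stage {D : Set ℂ} (hD : DG D) {v : ℕ} {C : Set (Sph v (BG D))}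
    (hC : IsCompact C) : ∃ l : ℕ, ∀ y ∈ C, y = (Sph v (BG D)).pt ∨
      ∃ u : Fin v → unitInterval, ∃ x ∈ range (toBG D l), y = Sph.mk u x := by
  by_contra hcon
  push Not at hcon
  choose y hyC hpt hy using hcon
  have hrep : ∀ n, ∃ (u : Fin v → I) (x : BG D), y n = Sph.mk u x := fun n =>
    (sph_cases (y n)).resolve_left (hpt n)
  choose u x hux using hrep
  have hx : ∀ n, x n ∉ range (toBG D n) := fun n h => hy n (u n) (x n) h (hux n)
  have hV : ∀ n, IsOpen {z : Sph v (BG D) | ∀ m, n ≤ m → z ≠ y m} := by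
    intro n
    rw [← (isQuotientMap_sq v (BG D)).isOpen_preimage, isOpen_sum_iff]
    constructor
    · have e : Sum.inl ⁻¹' (sq v (BG D) ⁻¹'
          {z : Sph v (BG D) | ∀ m, n ≤ m → z ≠ y m}) = univ := by
        ext a
        simp only [mem_preimage, mem_ofPred_eq, mem_univ, iff_true]
        intro m _ h
        exact hpt m h.symm
      rw [e]
      exact isOpen_univ
    · have e : Sum.inr ⁻¹' (sq v (BG D) ⁻¹' {z : Sph v (BG D) | ∀ m, n ≤ m → z ≠ y m}) =
          {p : (Fin v → I) × BG D | ∃ m, n ≤ m ∧ p = (u m, x m)}ᶜ := by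
        ext ⟨a, b⟩
        simp only [mem_preimage, mem_ofPred_eq, mem_compl_iff, not_exists, not_and]
        constructor
        · intro h m hm h2
          refine h m hm ?_
          rw [hux m]
          have h3 : a = u m := congrArg Prod.fst h2
          have h4 : b = x m := congrArg Prod.snd h2
          rw [h3, h4]
          rfl
        · intro h m hm h2
          refine h m hm ?_
          have h3 : Sph.mk (u m) (x m) = Sph.mk a b := by
            rw [← hux m]
            exact h2.symm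
          have h4 : Sph.mk (u m) (x m) ≠ (Sph v (BG D)).pt := by
            rw [← hux m]
            exact hpt m
          obtain ⟨h5, h6⟩ := mk_inj h3 h4
          rw [h5, h6]
      rw [e, isOpen_compl_iff]
      exact isClosed_pairs hD u x hx n
  have hcov : C ⊆ ⋃ n, {z : Sph v (BG D) | ∀ m, n ≤ m → z ≠ y m} := by
    intro z _
    rcases sph_cases z with hz | ⟨a, b, rfl⟩
    · exact mem_iUnion.2 ⟨0, fun m _ h => hpt m (h.symm.trans hz)⟩
    · obtain ⟨l, hl⟩ : ∃ l, b ∈ range (toBG D l) := by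
        obtain ⟨l, A, rfl⟩ := bq_surj D b
        exact ⟨l, mem_range D A⟩
      refine mem_iUnion.2 ⟨l, fun m hm h => ?_⟩
      exact hy m a b (range_mono D hm hl) h.symm
  have hdir : Directed (· ⊆ ·) fun n => {z : Sph v (BG D) | ∀ m, n ≤ m → z ≠ y m} := by
    intro a b
    exact ⟨max a b, fun z hz m hm => hz m ((le_max_left a b).trans hm),
      fun z hz m hm => hz m ((le_max_right a b).trans hm)⟩
  obtain ⟨n, hn⟩ := hC.elim_directed_cover _ hV hcov hdir
  exact hn (hyC n) n le_rfl rfl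

end Pool.Agent.Helper93.Stab
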