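import Pool.Agent.Helper1.Stab.PR
import Pool.Agent.Helper1.Stab.Comp2
import Pool.Agent.Helper68.Stab.Unstable

/-! The map `ℂP¹ → (ℂ)⁺ → Gr_1(ℂ²)` of the Bott class is stably homotopic to the inclusion. -/

open Topology Filter Set Matrix

noncomputable section

namespace Pool.Agent.Helper93.Stab

open Pool.Agent.Helper1.Stab

/-! ## Projections of rank one -/

theorem rank_one {ι : Type} [Fintype ι] (V : Matrix ι (Fin 1) ℂ) (X : Matrix ι ι ℂ) :
    V * Vᴴ * X * (V * Vᴴ) = (V * Vᴴ * X).trace • (V * Vᴴ) := by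
  have h1 : (V * Vᴴ * X).trace = (Vᴴ * X * V) 0 0 := by
    rw [Matrix.mul_assoc, Matrix.trace_mul_comm, Matrix.trace_fin_one]
  have h2 : Vᴴ * X * V = ((Vᴴ * X * V) 0 0) • (1 : Matrix (Fin 1) (Fin 1) ℂ) := by
    ext i j
    obtain rfl := Subsingleton.elim i 0
    obtain rfl := Subsingleton.elim j 0
    simp
  have h3 : V * Vᴴ * X * (V * Vᴴ) = V * (Vᴴ * X * V) * Vᴴ := by
    simp only [Matrix.mul_assoc]
  rw [h3, h2, ← h1, Matrix.mul_smul, Matrix.mul_one, Matrix.smul_mul]

theorem GK_rank_one (P : GK (Fin 1)) (X : Matrix (Fin 1 × Bool) (Fin 1 × Bool) ℂ) :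
    P.1 * X * P.1 = (P.1 * X).trace • P.1 := by
  obtain ⟨V, -, hP⟩ := Pool.Agent.Helper4.Stab.exists_iso P.1 P.2.1 P.2.2.1 P.2.2.2
  rw [← hP]
  exact rank_one V X

theorem GK_trace (P : GK (Fin 1)) : P.1.trace = 1 := by
  have h := P.2.2.2
  rw [h]
  simp

/-- The trace of a product of two projections is real and nonnegative. -/
theorem trace_real {ι : Type} [Fintype ι] (P Q : Matrix ι ι ℂ) (hP : Pᴴ = P) (hPP : P * P = P)
    (hQ : Qᴴ = Q) (hQQ : Q * Q = Q) : ∃ r : ℝ, 0 ≤ r ∧ (P * Q).trace = (r : ℂ) := by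
  have h1 : (P * Q).trace = ((P * Q)ᴴ * (P * Q)).trace := by
    rw [Matrix.conjTranspose_mul, hP, hQ]
    calc (P * Q).trace = (P * P * (Q * Q)).trace := by rw [hPP, hQQ]
      _ = (P * P * Q * Q).trace := by rw [Matrix.mul_assoc (P * P)]
      _ = (Q * (P * P * Q)).trace := Matrix.trace_mul_comm _ _
      _ = (Q * P * (P * Q)).trace := by simp only [Matrix.mul_assoc]
  refine ⟨∑ i, ∑ j, ‖(P * Q) j i‖ ^ 2, Finset.sum_nonneg fun i _ => Finset.sum_nonneg fun j _ =>
    sq_nonneg _, ?_⟩
  rw [h1, Matrix.trace]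
  push_cast
  refine Finset.sum_congr rfl fun i _ => ?_
  rw [Matrix.diag_apply, Matrix.mul_apply]
  refine Finset.sum_congr rfl fun j _ => ?_
  rw [Matrix.conjTranspose_apply, Complex.star_def, Complex.conj_mul']

/-- The factor of the homotopy. -/
def midA {ι : Type} [DecidableEq ι] (s : ℝ) (Q : Matrix ι ι ℂ) : Matrix ι ι ℂ :=
  ((1 - s : ℝ) : ℂ) • (1 : Matrix ι ι ℂ) + ((s : ℝ) : ℂ) • Q

/-- The norm of the homotopy. -/
def midN (s : ℝ) (t : ℂ) : ℂ := ((1 - s : ℝ) : ℂ) ^ 2 + ((2 * s * (1 - s) + s ^ 2 : ℝ) : ℂ) * t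

theorem midA_star {ι : Type} [DecidableEq ι] (s : ℝ) {Q : Matrix ι ι ℂ} (hQ : Qᴴ = Q) :
    (midA s Q)ᴴ = midA s Q := by
  unfold midA
  rw [Matrix.conjTranspose_add, Matrix.conjTranspose_smul, Matrix.conjTranspose_smul,
    Matrix.conjTranspose_one, hQ]
  simp

theorem midA_sq {ι : Type} [Fintype ι] [DecidableEq ι] (s : ℝ) {Q : Matrix ι ι ℂ}
    (hQQ : Q * Q = Q) : midA s Q * midA s Q =
      (((1 - s : ℝ) : ℂ) ^ 2) • (1 : Matrix ι ι ℂ) + ((2 * s * (1 - s) + s ^ 2 : ℝ) : ℂ) • Q := by
  unfold midA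
  simp only [Matrix.add_mul, Matrix.mul_add, Matrix.smul_mul, Matrix.mul_smul, Matrix.one_mul,
    Matrix.mul_one, hQQ]
  push_cast
  module

theorem mid_trace {ι : Type} [Fintype ι] [DecidableEq ι] (s : ℝ) {P Q : Matrix ι ι ℂ}
    (hP1 : P.trace = 1) (hQQ : Q * Q = Q) :
    (P * (midA s Q * midA s Q)).trace = midN s (P * Q).trace := by
  rw [midA_sq s hQQ, Matrix.mul_add, Matrix.mul_smul, Matrix.mul_smul, Matrix.mul_one,
    Matrix.trace_add, Matrix.trace_smul, Matrix.trace_smul, hP1]
  unfold midN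
  simp

theorem midN_ne {s : ℝ} (h0 : 0 ≤ s) (h1 : s ≤ 1) {r : ℝ} (hr : 0 < r) :
    midN s (r : ℂ) ≠ 0 := by
  unfold midN
  have h2 : (1 - s) ^ 2 + (2 * s * (1 - s) + s ^ 2) * r ≠ 0 := by
    have h3 : 0 ≤ (1 - s) ^ 2 := sq_nonneg _
    have h4 : 0 ≤ 2 * s * (1 - s) + s ^ 2 := by nlinarith
    rcases h0.eq_or_lt with rfl | h0'
    · norm_num
    · have h5 : 0 < 2 * s * (1 - s) + s ^ 2 := by nlinarith
      have := mul_pos h5 hr
      positivity
  exact_mod_cast h2

theorem midN_star (s r : ℝ) : star (midN s (r : ℂ)) = midN s (r : ℂ) := by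
  unfold midN
  simp

/-- The homotopy. -/
def mid (s : ℝ) (P Q : Matrix (Fin 1 × Bool) (Fin 1 × Bool) ℂ) :
    Matrix (Fin 1 × Bool) (Fin 1 × Bool) ℂ :=
  (midN s (P * Q).trace)⁻¹ • (midA s Q * P * midA s Q)

theorem mid_prop {s : ℝ} (h0 : 0 ≤ s) (h1 : s ≤ 1) (P Q : GK (Fin 1))
    (h : (P.1 * Q.1).trace ≠ 0) : (mid s P.1 Q.1)ᴴ = mid s P.1 Q.1 ∧
      mid s P.1 Q.1 * mid s P.1 Q.1 = mid s P.1 Q.1 ∧
      (mid s P.1 Q.1).trace = Fintype.card (Fin 1) := by
  obtain ⟨r, hr0, hr⟩ := trace_real P.1 Q.1 P.2.1 P.2.2.1 Q.2.1 Q.2.2.1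
  have hr1 : 0 < r := by
    refine lt_of_le_of_ne hr0 ?_
    rintro rfl
    exact h (by rw [hr]; simp)
  have hN : midN s (P.1 * Q.1).trace ≠ 0 := by
    rw [hr]
    exact midN_ne h0 h1 hr1
  have hNs : star (midN s (P.1 * Q.1).trace) = midN s (P.1 * Q.1).trace := by
    rw [hr]
    exact midN_star s r
  have hA := midA_star s (Q := Q.1) Q.2.1
  have htr : (P.1 * (midA s Q.1 * midA s Q.1)).trace = midN s (P.1 * Q.1).trace :=
    mid_trace s (GK_trace P) Q.2.2.1
  refine ⟨?_, ?_, ?_⟩
  · unfold mid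
    rw [Matrix.conjTranspose_smul, Matrix.conjTranspose_mul, Matrix.conjTranspose_mul, hA, P.2.1,
      star_inv₀, hNs, Matrix.mul_assoc]
  · unfold mid
    have e1 : midA s Q.1 * P.1 * midA s Q.1 * (midA s Q.1 * P.1 * midA s Q.1) =
        midA s Q.1 * (P.1 * (midA s Q.1 * midA s Q.1) * P.1) * midA s Q.1 := by
      simp only [Matrix.mul_assoc]
    rw [Matrix.smul_mul, Matrix.mul_smul, smul_smul, e1, GK_rank_one, htr, Matrix.mul_smul,
      Matrix.smul_mul, smul_smul, mul_assoc, inv_mul_cancel₀ hN, mul_one]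
  · unfold mid
    have e1 : (midA s Q.1 * P.1 * midA s Q.1).trace =
        (P.1 * (midA s Q.1 * midA s Q.1)).trace := by
      rw [Matrix.mul_assoc, Matrix.trace_mul_comm, Matrix.mul_assoc]
    rw [Matrix.trace_smul, e1, htr, smul_eq_mul, inv_mul_cancel₀ hN]
    simp

theorem mid_zero (P Q : Matrix (Fin 1 × Bool) (Fin 1 × Bool) ℂ) : mid 0 P Q = P := by
  simp [mid, midA, midN]

theorem mid_one (P Q : Matrix (Fin 1 × Bool) (Fin 1 × Bool) ℂ)
    (h : Q * P * Q = (P * Q).trace • Q) (ht : (P * Q).trace ≠ 0) : mid 1 P Q = Q := by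
  have e1 : midA 1 Q = Q := by simp [midA]
  have e2 : midN 1 (P * Q).trace = (P * Q).trace := by
    unfold midN
    norm_num
  unfold mid
  rw [e1, e2, h, smul_smul, inv_mul_cancel₀ ht, one_smul]

/-- Two families of lines in `ℂ²` that are nowhere orthogonal are homotopic. -/
theorem homotopic_of_trace {X : Type} [TopologicalSpace X] (f g : C(X, GK (Fin 1)))
    (h : ∀ x, ((f x).1 * (g x).1).trace ≠ 0) : ContinuousMap.Homotopic f g := by
  have hN : ∀ p : unitInterval × X,
      midN ((p.1 : unitInterval) : ℝ) ((f p.2).1 * (g p.2).1).trace ≠ 0 := by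
    intro p
    obtain ⟨r, hr0, hr⟩ := trace_real (f p.2).1 (g p.2).1 (f p.2).2.1 (f p.2).2.2.1
      (g p.2).2.1 (g p.2).2.2.1
    have hr1 : 0 < r := by
      refine lt_of_le_of_ne hr0 ?_
      rintro rfl
      exact h p.2 (by rw [hr]; simp)
    rw [hr]
    exact midN_ne p.1.2.1 p.1.2.2 hr1
  have hf : Continuous fun p : unitInterval × X => (f p.2).1 :=
    continuous_subtype_val.comp (f.continuous.comp continuous_snd)
  have hg : Continuous fun p : unitInterval × X => (g p.2).1 :=
    continuous_subtype_val.comp (g.continuous.comp continuous_snd)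
  have hs : Continuous fun p : unitInterval × X => ((p.1 : unitInterval) : ℝ) := by fun_prop
  have ht : Continuous fun p : unitInterval × X => ((f p.2).1 * (g p.2).1).trace :=
    (hf.matrix_mul hg).matrix_trace
  have hNc : Continuous fun p : unitInterval × X =>
      midN ((p.1 : unitInterval) : ℝ) ((f p.2).1 * (g p.2).1).trace := by
    unfold midN
    exact ((Complex.continuous_ofReal.comp (continuous_const.sub hs)).pow 2).add
      ((Complex.continuous_ofReal.comp (((continuous_const.mul hs).mul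
        (continuous_const.sub hs)).add (hs.pow 2))).mul ht)
  have hAc : Continuous fun p : unitInterval × X =>
      midA ((p.1 : unitInterval) : ℝ) (g p.2).1 := by
    unfold midA
    exact ((Complex.continuous_ofReal.comp (continuous_const.sub hs)).smul continuous_const).add
      ((Complex.continuous_ofReal.comp hs).smul hg)
  refine ⟨⟨⟨fun p => ⟨mid ((p.1 : unitInterval) : ℝ) (f p.2).1 (g p.2).1,
    mid_prop p.1.2.1 p.1.2.2 (f p.2) (g p.2) (h p.2)⟩, ?_⟩, ?_, ?_⟩⟩
  · refine Continuous.subtype_mk ?_ _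
    unfold mid
    exact (hNc.inv₀ hN).smul ((hAc.matrix_mul hf).matrix_mul hAc)
  · intro x
    exact Subtype.ext (mid_zero (f x).1 (g x).1)
  · intro x
    refine Subtype.ext (mid_one (f x).1 (g x).1 ?_ (h x))
    rw [GK_rank_one, Matrix.trace_mul_comm]

/-! ## The two maps -/

/-- `ℂP¹` as the Grassmannian `Gr_1(ℂ²)`. -/
def jGK (P : Pr Bool 1) : GK (Fin 1) :=
  ⟨fun x y => P.1 x.2 y.2, by
    refine ⟨?_, ?_, ?_⟩
    · ext x y
      exact congrFun (congrFun P.2.1 x.2) y.2
    · ext x y
      have h := congrFun (congrFun P.2.2.1 x.2) y.2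
      rw [Matrix.mul_apply] at h
      rw [Matrix.mul_apply, Fintype.sum_prod_type]
      simpa using h
    · have h := P.2.2.2
      rw [Matrix.trace] at h
      rw [Matrix.trace, Fintype.sum_prod_type]
      simpa [Matrix.diag_apply] using h⟩

theorem jGK_cont : Continuous jGK := by
  refine Continuous.subtype_mk (continuous_matrix fun x y => ?_) _
  exact Pr.continuous_val69.matrix_elem _ _

/-- `ℂ = ℂ^1` -/
def oneH : LC.C ≃ₜ LC.cpow (Fin 1) where
  toFun z := fun _ => z
  invFun v := v 0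
  left_inv z := rfl
  right_inv v := by
    funext i
    obtain rfl := Subsingleton.elim i 0
    rfl
  continuous_toFun := by fun_prop
  continuous_invFun := by fun_prop

theorem oneMap_cont : Continuous fun x : OnePoint ℂ => OnePoint.elim x OnePoint.infty
    (fun z => (((fun _ => z : Fin 1 → ℂ)) : OnePoint (Fin 1 → ℂ))) :=
  (PMap.ofHomeo oneH).continuous_plus

/-- The map of the Bott class. -/
def bottMap (P : Pr Bool 1) : GK (Fin 1) :=
  loopBar (e := 1) (loopGK bott) (OnePoint.elim (collP1 P) OnePoint.infty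
    (fun z => (((fun _ => z : Fin 1 → ℂ)) : OnePoint (Fin 1 → ℂ))))

theorem bottMap_cont : Continuous bottMap :=
  (loopBar (e := 1) (loopGK bott)).continuous.comp (oneMap_cont.comp collP1_aux)

theorem bottMap_infty {P : Pr Bool 1} (h : P.1 false false = 0) :
    bottMap P = GK.base (Fin 1) := by
  have h1 : (collP1 P : OnePoint ℂ) = OnePoint.infty := by
    change collP1Fun P = _
    unfold collP1Fun
    rw [if_pos h]
  unfold bottMap
  rw [h1]
  rfl

/-- The point of the square. -/
def sqP (z : ℂ) : Fin 2 → unitInterval := fun i => squash (realify 1 (fun _ => z) i)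

theorem bottMap_fin {P : Pr Bool 1} (h : P.1 false false ≠ 0) :
    bottMap P = Frame.proj (bottFrame (sqP (P.1 true false / P.1 false false))) := by
  have h1 : (collP1 P : OnePoint ℂ) = ((P.1 true false / P.1 false false : ℂ) : OnePoint ℂ) := by
    change collP1Fun P = _
    unfold collP1Fun
    rw [if_neg h]
  unfold bottMap
  rw [h1]
  rfl

/-- The unit vector. -/
def qv (u : Fin 2 → unitInterval) (b : Bool) : ℂ :=
  if b then disc u else ((Real.sqrt (1 - ‖disc u‖ ^ 2) : ℝ) : ℂ)

theorem proj_bott (u : Fin 2 → unitInterval) (x y : Fin 1 × Bool) :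
    (Frame.proj (bottFrame u)).1 x y = qv u x.2 * star (qv u y.2) := by
  obtain ⟨i, b⟩ := x
  obtain ⟨j, c⟩ := y
  obtain rfl := Subsingleton.elim i 0
  obtain rfl := Subsingleton.elim j 0
  change ∑ c' ∈ Finset.range 1, (bottFrame u).1 (2 * ((0 : Fin 1) : ℕ) + (if b then 0 else 1)) c' *
      star ((bottFrame u).1 (2 * ((0 : Fin 1) : ℕ) + (if c then 0 else 1)) c') = _
  rw [Finset.sum_range_one]
  cases b <;> cases c <;> simp [bottFrame, qv]

theorem sqP_zero (z : ℂ) : 2 * ((sqP z 0 : unitInterval) : ℝ) - 1 = z.re / (1 + |z.re|) := by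
  change 2 * ((1 + z.re / (1 + |z.re|)) / 2) - 1 = z.re / (1 + |z.re|)
  ring

theorem sqP_one (z : ℂ) : 2 * ((sqP z 1 : unitInterval) : ℝ) - 1 = z.im / (1 + |z.im|) := by
  change 2 * ((1 + z.im / (1 + |z.im|)) / 2) - 1 = z.im / (1 + |z.im|)
  ring

theorem abs_sq_lt (t : ℝ) : |t / (1 + |t|)| < 1 := by
  have h : 0 < 1 + |t| := by positivity
  rw [abs_div, abs_of_pos h, div_lt_one h]
  linarith

theorem norm_disc_lt (z : ℂ) : ‖disc (sqP z)‖ < 1 := by
  rw [norm_disc, sqP_zero, sqP_one]
  exact max_lt (abs_sq_lt _) (abs_sq_lt _)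

theorem disc_inner (z : ℂ) : 0 ≤ (disc (sqP z) * star z).re := by
  have e : disc (sqP z) =
      ((max |2 * ((sqP z 0 : unitInterval) : ℝ) - 1| |2 * ((sqP z 1 : unitInterval) : ℝ) - 1| /
        ‖(⟨2 * ((sqP z 0 : unitInterval) : ℝ) - 1, 2 * ((sqP z 1 : unitInterval) : ℝ) - 1⟩ : ℂ)‖ :
          ℝ) : ℂ) *
      (⟨2 * ((sqP z 0 : unitInterval) : ℝ) - 1, 2 * ((sqP z 1 : unitInterval) : ℝ) - 1⟩ : ℂ) := rfl
  rw [e, sqP_zero, sqP_one]
  set c : ℝ := max |z.re / (1 + |z.re|)| |z.im / (1 + |z.im|)| /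
    ‖(⟨z.re / (1 + |z.re|), z.im / (1 + |z.im|)⟩ : ℂ)‖ with hc
  have hc0 : 0 ≤ c := div_nonneg (le_max_of_le_left (abs_nonneg _)) (norm_nonneg _)
  rw [mul_assoc, Complex.re_ofReal_mul]
  refine mul_nonneg hc0 ?_
  rw [Complex.mul_re, Complex.star_def, Complex.conj_re, Complex.conj_im]
  have h1 : 0 < 1 + |z.re| := by positivity
  have h2 : 0 < 1 + |z.im| := by positivity
  have e2 : z.re / (1 + |z.re|) * z.re - z.im / (1 + |z.im|) * -z.im =
      z.re ^ 2 / (1 + |z.re|) + z.im ^ 2 / (1 + |z.im|) := by ring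
  change 0 ≤ z.re / (1 + |z.re|) * z.re - z.im / (1 + |z.im|) * -z.im
  rw [e2]
  positivity

theorem trace_ne (P : Pr Bool 1) : ((bottMap P).1 * (jGK P).1).trace ≠ 0 := by
  have hT : P.1 true true + P.1 false false = 1 := by
    have h := P.2.2.2
    rw [Matrix.trace, Fintype.sum_bool] at h
    simpa [Matrix.diag_apply] using h
  by_cases h : P.1 false false = 0
  · have e : ((bottMap P).1 * (jGK P).1).trace = P.1 true true := by
      rw [bottMap_infty h, Matrix.trace, Fintype.sum_prod_type]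
      simp only [Matrix.diag_apply, Matrix.mul_apply]
      have e1 : ∀ x y, (GK.base (Fin 1)).1 x y = if x = y ∧ x.2 = true then 1 else 0 := by
        intro x y
        by_cases hx : x = y ∧ x.2 = true
        · rw [if_pos hx]
          exact if_pos hx
        · rw [if_neg hx]
          exact if_neg hx
      have e2 : ∀ x y, (jGK P).1 x y = P.1 x.2 y.2 := fun _ _ => rfl
      simp only [e1, e2, Fintype.sum_prod_type]
      simp
    rw [e]
    rw [h, add_zero] at hT
    rw [hT]
    exact one_ne_zero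
  · set a := P.1 false false with ha
    set w := P.1 true false with hb
    set z := w / a with hz
    have e : ((bottMap P).1 * (jGK P).1).trace =
        qv (sqP z) true * star (qv (sqP z) true) * P.1 true true +
        qv (sqP z) true * star (qv (sqP z) false) * P.1 false true +
        (qv (sqP z) false * star (qv (sqP z) true) * P.1 true false +
        qv (sqP z) false * star (qv (sqP z) false) * P.1 false false) := by
      rw [bottMap_fin h, Matrix.trace, Fintype.sum_prod_type]
      simp only [Matrix.diag_apply, Matrix.mul_apply]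
      have e2 : ∀ x y, (jGK P).1 x y = P.1 x.2 y.2 := fun _ _ => rfl
      simp only [proj_bott, e2, Fintype.sum_prod_type]
      simp only [Finset.univ_unique, Fin.default_eq_zero, Finset.sum_singleton, Fintype.sum_bool]
      rfl
    rw [e]
    have g1 : star a = a := congrFun (congrFun P.2.1 false) false
    have g2 : star w = P.1 false true := congrFun (congrFun P.2.1 false) true
    have g3 : P.1 false true * w + a * a = a := by
      have := congrFun (congrFun P.2.2.1 false) false
      rwa [Matrix.mul_apply, Fintype.sum_bool] at this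
    obtain ⟨r, hr⟩ : ∃ r : ℝ, (r : ℂ) = a := (Complex.conj_eq_iff_real.1 g1).imp
      fun _ h => h.symm
    have hr0 : 0 < r := by
      rw [← g2, Complex.star_def, Complex.conj_mul', ← hr] at g3
      have g5 : ‖w‖ ^ 2 + r * r = r := by exact_mod_cast g3
      have : 0 ≤ r := by nlinarith [sq_nonneg ‖w‖, mul_self_nonneg r]
      refine lt_of_le_of_ne this ?_
      rintro rfl
      exact h (by rw [← hr]; simp)
    have hwz : w = a * z := by
      rw [hz]
      field_simp
    set W := disc (sqP z) with hW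
    have hWn : ‖W‖ < 1 := norm_disc_lt z
    set S := Real.sqrt (1 - ‖W‖ ^ 2) with hS
    have hS0 : 0 < S := Real.sqrt_pos.2 (by nlinarith [norm_nonneg W])
    have hq1 : qv (sqP z) true = W := by simp [qv, hW]
    have hq2 : qv (sqP z) false = (S : ℂ) := by simp [qv, hS, hW]
    rw [hq1, hq2]
    intro h0
    have hT' : P.1 true true = 1 - a := by rw [← hT]; ring
    have h1 : (W * star w + S * a) * star (W * star w + S * a) = 0 := by
      have hSs : star (S : ℂ) = S := Complex.conj_ofReal S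
      have g4 : star w * w = a * (1 - a) := by
        rw [g2]
        linear_combination g3
      rw [hSs, hT', ← g2] at h0
      change W * star W * (1 - a) + W * S * star w + (S * star W * w + S * S * a) = 0 at h0
      rw [star_add, star_mul', star_mul', star_star, hSs, g1]
      calc (W * star w + S * a) * (star W * w + S * a)
          = W * star W * (star w * w) + a * (W * S * star w + (S * star W * w + S * S * a)) := by
            ring
        _ = a * (W * star W * (1 - a) + W * S * star w + (S * star W * w + S * S * a)) := by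
            rw [g4]; ring
        _ = 0 := by rw [h0, mul_zero]
    have h2 : W * star w + S * a = 0 := by
      rcases mul_eq_zero.1 h1 with h3 | h3
      · exact h3
      · exact star_eq_zero.1 h3
    have h3 := congrArg Complex.re h2
    rw [hwz, star_mul', g1, ← hr] at h3
    have e5 : W * ((r : ℂ) * star z) + S * (r : ℂ) = ((r : ℝ) : ℂ) * (W * star z) +
        ((S * r : ℝ) : ℂ) := by
      push_cast
      ring
    rw [e5, Complex.add_re, Complex.re_ofReal_mul, Complex.ofReal_re, Complex.zero_re] at h3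
    have h4 := disc_inner z
    rw [← hW] at h4
    have h5 : 0 < S * r := mul_pos hS0 hr0
    have h6 : 0 ≤ r * (W * star z).re := mul_nonneg hr0.le h4
    linarith

theorem bott_homotopic : ContinuousMap.Homotopic (⟨bottMap, bottMap_cont⟩ : C(Pr Bool 1, GK (Fin 1)))
    (⟨jGK, jGK_cont⟩ : C(Pr Bool 1, GK (Fin 1))) :=
  homotopic_of_trace _ _ trace_ne

/-! ## Permutations of the coordinates -/

theorem perm_prop {κ : Type} [Fintype κ] (σ : Equiv.Perm (κ × Bool)) (P : GK κ)
    (M : Matrix (κ × Bool) (κ × Bool) ℂ) (hM : ∀ x y, M x y = P.1 (σ x) (σ y)) :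
    Mᴴ = M ∧ M * M = M ∧ M.trace = Fintype.card κ := by
  refine ⟨?_, ?_, ?_⟩
  · ext x y
    rw [Matrix.conjTranspose_apply, hM, hM]
    exact congrFun (congrFun P.2.1 (σ x)) (σ y)
  · ext x y
    have h := congrFun (congrFun P.2.2.1 (σ x)) (σ y)
    rw [Matrix.mul_apply] at h
    rw [Matrix.mul_apply, hM, ← h, ← Equiv.sum_comp σ (fun z => P.1 (σ x) z * P.1 z (σ y))]
    exact Finset.sum_congr rfl fun z _ => by rw [hM, hM]
  · rw [← P.2.2.2, Matrix.trace, Matrix.trace, ← Equiv.sum_comp σ (fun z => P.1.diag z)]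
    exact Finset.sum_congr rfl fun z _ => by rw [Matrix.diag_apply, Matrix.diag_apply, hM]

/-- A permutation of all the coordinates. -/
def permG {κ : Type} [Fintype κ] (σ : Equiv.Perm (κ × Bool)) : C(GK κ, GK κ) :=
  ⟨fun P => ⟨fun x y => P.1 (σ x) (σ y), perm_prop σ P _ fun _ _ => rfl⟩, by
    refine Continuous.subtype_mk (continuous_matrix fun x y => ?_) _
    exact continuous_subtype_val.matrix_elem _ _⟩

theorem permG_swap {κ : Type} [Fintype κ] [DecidableEq κ] {i j : κ × Bool} (hij : i ≠ j) :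
    ContinuousMap.Homotopic (permG (Equiv.swap i j)) (ContinuousMap.id (GK κ)) := by
  refine ContinuousMap.Homotopic.symm ⟨⟨⟨fun p => GK.conj ⟨rotM i j (zpath p.1),
    rotM_unitary hij _ (zpath_star p.1)⟩ p.2, ?_⟩, ?_, ?_⟩⟩
  · refine Continuous.subtype_mk ?_ _
    have h1 : Continuous fun x : unitInterval × GK κ => rotM i j (zpath x.1) := by
      refine continuous_matrix fun a b => ?_
      simp only [rotM]
      have hz : Continuous fun x : unitInterval × GK κ => zpath x.1 :=
        zpath_cont.comp continuous_fst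
      exact continuous_const.add (((hz.sub continuous_const).div_const 2).mul continuous_const)
    have h2 : Continuous fun x : unitInterval × GK κ => x.2.1 :=
      continuous_subtype_val.comp continuous_snd
    exact (h1.matrix_mul h2).matrix_mul h1.matrix_conjTranspose
  · intro P
    apply Subtype.ext
    change rotM i j (zpath (0 : unitInterval)) * P.1 * (rotM i j (zpath (0 : unitInterval)))ᴴ = P.1
    rw [zpath_zero, rotM_one, Matrix.conjTranspose_one, Matrix.one_mul, Matrix.mul_one]
  · intro P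
    apply Subtype.ext
    change rotM i j (zpath (1 : unitInterval)) * P.1 * (rotM i j (zpath (1 : unitInterval)))ᴴ =
      fun x y => P.1 (Equiv.swap i j x) (Equiv.swap i j y)
    rw [zpath_one]
    ext x y
    rw [Matrix.mul_apply]
    simp only [Matrix.mul_apply, Matrix.conjTranspose_apply, rotM_neg_one hij]
    simp only [ite_mul, one_mul, zero_mul, Finset.sum_ite_eq, Finset.mem_univ, if_true]
    rw [Finset.sum_eq_single (Equiv.swap i j y)]
    · rw [if_pos rfl, star_one, mul_one]
    · intro b _ hb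
      rw [if_neg (fun h' => hb h'.symm), star_zero, mul_zero]
    · intro h'
      exact absurd (Finset.mem_univ _) h'

theorem permG_homotopic {κ : Type} [Fintype κ] [DecidableEq κ] (σ : Equiv.Perm (κ × Bool)) :
    ContinuousMap.Homotopic (permG σ) (ContinuousMap.id (GK κ)) := by
  refine Equiv.Perm.swap_induction_on (motive := fun σ : Equiv.Perm (κ × Bool) =>
    ContinuousMap.Homotopic (permG σ) (ContinuousMap.id (GK κ))) σ ?_ ?_
  · exact ContinuousMap.Homotopic.refl _
  · intro f x y hxy hf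
    have h : permG (Equiv.swap x y * f) = (permG f).comp (permG (Equiv.swap x y)) := rfl
    rw [h]
    exact hf.comp (permG_swap hxy)

/-! ## The theorem -/

/-- The names of the coordinates. -/
def eB : Fin 1 ⊕ Fin 1 ≃ Bool ⊕ Fin 0 where
  toFun := Sum.elim (fun _ => Sum.inl false) (fun _ => Sum.inl true)
  invFun := Sum.elim (fun b => if b then Sum.inr 0 else Sum.inl 0) (fun i => i.elim0)
  left_inv x := by
    rcases x with i | i <;> (obtain rfl := Subsingleton.elim i 0; rfl)
  right_inv x := by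
    rcases x with b | i
    · cases b <;> rfl
    · exact i.elim0

/-- The permutation of the coordinates. -/
def sB : Equiv.Perm ((Bool ⊕ Fin 0) × Bool) where
  toFun x := Sum.elim (fun i => (Sum.inl (!x.2), i)) (fun i => i.elim0) x.1
  invFun x := Sum.elim (fun a => (Sum.inl x.2, !a)) (fun i => i.elim0) x.1
  left_inv x := by
    rcases x with ⟨i | i, b⟩
    · simp
    · exact i.elim0
  right_inv x := by
    rcases x with ⟨i | i, b⟩
    · simp
    · exact i.elim0

/-- The map of the Bott class is stably homotopic to the inclusion. -/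
theorem bott_final (hg : Continuous (Pr.toG (S := Bool) (n := 1) {true} (by simp))) :
    ∃ (m n : ℕ) (e : Fin 1 ⊕ Fin m ≃ Bool ⊕ Fin n),
    ContinuousMap.Homotopic
      (⟨fun x => GK.reindex e (GK.sum (bottMap x, GK.base (Fin m))),
        (GK.reindex e).continuous.comp (GK.continuous_sum.comp
          (bottMap_cont.prodMk continuous_const))⟩ : C(Pr Bool 1, GK (Bool ⊕ Fin n)))
      (⟨fun x => GK.sum (Pr.toG (S := Bool) (n := 1) {true} (by simp) x, GK.base (Fin n)),
        GK.continuous_sum.comp (hg.prodMk continuous_const)⟩ :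
          C(Pr Bool 1, GK (Bool ⊕ Fin n))) := by
  refine ⟨1, 0, eB, ?_⟩
  set Φ : C(GK (Fin 1), GK (Bool ⊕ Fin 0)) :=
    ⟨fun Q => GK.reindex eB (GK.sum (Q, GK.base (Fin 1))),
      (GK.reindex eB).continuous.comp (GK.continuous_sum.comp
        (continuous_id.prodMk continuous_const))⟩ with hΦ
  have h1 : ContinuousMap.Homotopic (Φ.comp ⟨bottMap, bottMap_cont⟩)
      (Φ.comp ⟨jGK, jGK_cont⟩) :=
    (ContinuousMap.Homotopic.refl Φ).comp bott_homotopic
  have h2 : ContinuousMap.Homotopic ((permG sB).comp (Φ.comp ⟨jGK, jGK_cont⟩))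
      ((ContinuousMap.id _).comp (Φ.comp ⟨jGK, jGK_cont⟩)) :=
    (permG_homotopic sB).comp (ContinuousMap.Homotopic.refl _)
  rw [ContinuousMap.id_comp] at h2
  refine h1.trans ?_
  refine h2.symm.trans ?_
  have h3 : (permG sB).comp (Φ.comp ⟨jGK, jGK_cont⟩) =
      (⟨fun x => GK.sum (Pr.toG (S := Bool) (n := 1) {true} (by simp) x, GK.base (Fin 0)),
        GK.continuous_sum.comp (hg.prodMk continuous_const)⟩ :
          C(Pr Bool 1, GK (Bool ⊕ Fin 0))) := by
    ext P : 1
    apply Subtype.ext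
    ext x y
    rcases x with ⟨i | i, b⟩
    · rcases y with ⟨j | j, c⟩
      · cases b <;> cases c <;> cases i <;> cases j <;>
          first
            | rfl
            | (simp [permG, hΦ, sB, eB, jGK, GK.reindex, GK.sum, sumFun, GK.base, Pr.toG])
      · exact j.elim0
    · exact i.elim0
  rw [h3]

end Pool.Agent.Helper93.Stab
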