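import Pool.Agent.Helper1.Stab.T.Cls
import Pool.Agent.Helper67.Stab.RelD

/-! The universal property of the theory `R ∧ BU₊` and the augmentation. -/

open CategoryTheory Topology Filter Set Opposite

noncomputable section

namespace Pool.Agent.Helper93.Stab.LG

open Pool.Agent.Helper1.Stab Pool.Agent.Helper63.Stab Pool.Agent.Helper67.Stab

variable {R : Biv}

section
variable (T : GBiv) (F : BivHom R T.toBiv)

theorem F_jh {K L : LC} (e : K ≃ₜ L) : F.F (jh R e) = jh T.toBiv e := F.J _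

/-- the class of an element at a stage -/
def cl {κ : Type} [Fintype κ] {K Z : LC} (y : R.Hom K ((LC.G κ).prod Z)) : T.Hom K Z :=
  T.comp (F.F y) (T.comp (T.tens (T.g κ) Z) (jh T.toBiv (lu Z)))

variable {κ l : Type} [Fintype κ] [Fintype l] {K L Z : LC}

theorem cl_add (y y' : R.Hom K ((LC.G κ).prod Z)) :
    cl T F (y + y') = cl T F y + cl T F y' := by
  rw [cl, cl, cl, F.add, T.add_comp]

theorem cl_zero : cl T F (0 : R.Hom K ((LC.G κ).prod Z)) = 0 := by
  have h := cl_add T F (0 : R.Hom K ((LC.G κ).prod Z)) 0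
  rw [add_zero] at h
  exact left_eq_add.1 h

theorem cl_sub (y y' : R.Hom K ((LC.G κ).prod Z)) :
    cl T F (y - y') = cl T F y - cl T F y' := by
  have h := cl_add T F (y - y') y'
  rw [sub_add_cancel] at h
  rw [h, add_sub_cancel_right]

theorem cl_stab (y : R.Hom K ((LC.G κ).prod Z)) (l : Type) [Fintype l] :
    cl T F (R.comp y (R.tens (R.J (GK.stab κ l)) Z)) = cl T F y := by
  rw [cl, cl, F.comp, F.tens, F.J, T.assoc, ← T.assoc (T.tens _ _), ← T.tens_comp, g_stab]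

theorem cl_re (e : κ ≃ l) (y : R.Hom K ((LC.G κ).prod Z)) :
    cl T F (R.comp y (R.tens (jh R (K := LC.G κ) (L := LC.G l) (GK.reindex e)) Z)) =
      cl T F y := by
  have h1 : T.comp (jh T.toBiv (K := LC.G κ) (L := LC.G l) (GK.reindex e)) (T.g l) = T.g κ :=
    T.g_reindex e
  rw [cl, cl, F.comp, F.tens, F_jh, T.assoc, ← T.assoc (T.tens _ _), ← T.tens_comp, h1]

/-- the composition of two elements of stages -/
def mcomp (y : R.Hom K ((LC.G κ).prod L)) (y' : R.Hom L ((LC.G l).prod Z)) :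
    R.Hom K ((LC.G (κ ⊕ l)).prod Z) :=
  R.comp y (R.comp (R.ltens (LC.G κ) y') (R.comp
    (jh R (K := (LC.G κ).prod ((LC.G l).prod Z)) (L := ((LC.G κ).prod (LC.G l)).prod Z)
      (Homeomorph.prodAssoc (LC.G κ) (LC.G l) Z).symm) (R.tens (R.J (GK.sumMap κ l)) Z)))

theorem cl_mcomp (y : R.Hom K ((LC.G κ).prod L)) (y' : R.Hom L ((LC.G l).prod Z)) :
    cl T F (mcomp y y') = T.comp (cl T F y) (cl T F y') := by
  have e1 : T.comp (jh T.toBiv (lu L)) (F.F y') = T.comp (T.ltens LC.point (F.F y'))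
      (jh T.toBiv (lu ((LC.G l).prod Z))) := lu_nat (R := T.toBiv) (F.F y')
  have e2 : T.comp (T.tens (T.g κ) L) (T.ltens LC.point (F.F y')) =
      T.comp (T.ltens (LC.G κ) (F.F y')) (T.tens (T.g κ) ((LC.G l).prod Z)) := T.exch _ _
  have e3 : T.comp (jh T.toBiv (K := (LC.G κ).prod ((LC.G l).prod Z))
      (L := ((LC.G κ).prod (LC.G l)).prod Z) (Homeomorph.prodAssoc (LC.G κ) (LC.G l) Z).symm)
      (T.tens (T.tens (T.g κ) (LC.G l)) Z) = T.comp (T.tens (T.g κ) ((LC.G l).prod Z))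
        (jh T.toBiv (K := LC.point.prod ((LC.G l).prod Z))
      (L := (LC.point.prod (LC.G l)).prod Z) (Homeomorph.prodAssoc LC.point (LC.G l) Z).symm) := by
    rw [tens_tens_eq_pl, tens_eq_pl]
    exact pl_comm (R := T.toBiv) (T.g κ) (Homeomorph.refl _) _ _ _ _ _ _ (fun _ => rfl)
      (fun _ => rfl)
  have e4 : T.comp (jh T.toBiv (K := LC.point.prod ((LC.G l).prod Z))
      (L := (LC.point.prod (LC.G l)).prod Z) (Homeomorph.prodAssoc LC.point (LC.G l) Z).symm)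
      (T.comp (T.tens (T.ltens LC.point (T.g l)) Z) (T.comp (T.tens (jh T.toBiv
        (K := LC.point.prod LC.point) (L := LC.point) (Homeomorph.prodPUnit LC.point)) Z)
        (jh T.toBiv (lu Z)))) = T.comp (jh T.toBiv (lu ((LC.G l).prod Z)))
        (T.comp (T.tens (T.g l) Z) (jh T.toBiv (lu Z))) := by
    rw [ltens_eq_pl, tens_pl, tens_jh, tens_eq_pl, ← jh_trans, pl_jh, jh_pl, pl_jh, jh_pl]
    exact pl_congr (R := T.toBiv) (T.g l) (pS Z) _ _ _ _ (fun _ => rfl) (fun _ => rfl)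
  have e5 : T.comp (jh T.toBiv (lu L)) (cl T F y') = T.comp (T.ltens LC.point (F.F y'))
      (T.comp (jh T.toBiv (lu ((LC.G l).prod Z))) (T.comp (T.tens (T.g l) Z)
        (jh T.toBiv (lu Z)))) := by
    rw [cl, ← T.assoc, e1, T.assoc]
  have e6 : T.comp (T.tens (T.g κ) ((LC.G l).prod Z)) (T.comp (jh T.toBiv (lu ((LC.G l).prod Z)))
        (T.comp (T.tens (T.g l) Z) (jh T.toBiv (lu Z)))) = T.comp (jh T.toBiv
      (K := (LC.G κ).prod ((LC.G l).prod Z))
      (L := ((LC.G κ).prod (LC.G l)).prod Z) (Homeomorph.prodAssoc (LC.G κ) (LC.G l) Z).symm)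
      (T.comp (T.tens (T.J (GK.sumMap κ l)) Z) (T.comp (T.tens (T.g (κ ⊕ l)) Z)
        (jh T.toBiv (lu Z)))) := by
    rw [← e4, ← T.assoc (T.tens (T.J _) Z), ← T.tens_comp, g_sum', T.tens_comp, T.tens_comp]
    simp only [T.assoc]
    rw [← T.assoc (T.tens (T.g κ) _), ← e3, T.assoc]
  rw [mcomp, cl, F.comp, F.comp, F.comp, F.ltens, F_jh, F.tens, F.J]
  have e7 : T.comp (cl T F y) (cl T F y') = T.comp (F.F y) (T.comp (T.tens (T.g κ) L)
      (T.comp (jh T.toBiv (lu L)) (cl T F y'))) := by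
    conv_lhs => rw [cl]
    rw [T.assoc, T.assoc]
  rw [e7, e5, ← T.assoc (T.tens (T.g κ) L), e2]
  simp only [T.assoc]
  exact congrArg (fun t => T.comp _ (T.comp _ t)) e6.symm

/-- the product with the identity of `W` -/
def mtens (y : R.Hom K ((LC.G κ).prod Z)) (W : LC) :
    R.Hom (K.prod W) ((LC.G κ).prod (Z.prod W)) :=
  R.comp (R.tens y W) (jh R (K := ((LC.G κ).prod Z).prod W) (L := (LC.G κ).prod (Z.prod W))
    (Homeomorph.prodAssoc (LC.G κ) Z W))

theorem cl_mtens (y : R.Hom K ((LC.G κ).prod Z)) (W : LC) :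
    cl T F (mtens y W) = T.tens (cl T F y) W := by
  have e1 : T.comp (jh T.toBiv (K := ((LC.G κ).prod Z).prod W) (L := (LC.G κ).prod (Z.prod W))
      (Homeomorph.prodAssoc (LC.G κ) Z W)) (T.comp (T.tens (T.g κ) (Z.prod W))
        (jh T.toBiv (lu (Z.prod W)))) = T.comp (T.tens (T.tens (T.g κ) Z) W)
        (T.tens (jh T.toBiv (lu Z)) W) := by
    rw [tens_lu, tens_tens_eq_pl, tens_eq_pl, pl_jh, jh_pl, ← jh_trans, pl_jh]
    exact pl_congr (R := T.toBiv) (T.g κ) (Homeomorph.refl _) _ _ _ _ (fun _ => rfl)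
      (fun _ => rfl)
  rw [mtens, cl, cl, F.comp, F.tens, F_jh, T.assoc, T.tens_comp, T.tens_comp]
  exact congrArg (fun t => T.comp _ t) e1

/-- an element of `R` at a stage -/
def minc (κ : Type) [Fintype κ] (x : R.Hom K Z) : R.Hom K ((LC.G κ).prod Z) :=
  R.comp x (R.comp (jh R (lu Z).symm)
    (R.tens (R.J (PMap.ofPoint (K := LC.G κ) (GK.base κ))) Z))

theorem cl_minc (κ : Type) [Fintype κ] (x : R.Hom K Z) : cl T F (minc κ x) = F.F x := by
  rw [minc, cl, F.comp, F.comp, F.tens, F_jh, F.J, T.assoc, T.assoc,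
    ← T.assoc (T.tens (T.J _) Z), ← T.tens_comp, T.g_base, tens_id, T.id_comp, jh_symm_comp',
    T.comp_id]

/-- the tautological class at a stage -/
def mg (R : Biv) (κ : Type) [Fintype κ] : R.Hom (LC.G κ) ((LC.G κ).prod LC.point) :=
  jh R (K := LC.G κ) (L := (LC.G κ).prod LC.point) (Homeomorph.prodPUnit (LC.G κ)).symm

theorem cl_mg (κ : Type) [Fintype κ] : cl T F (mg R κ) = T.g κ := by
  have h := T.tens_point (T.g κ)
  have h2 : T.comp (T.tens (T.g κ) LC.point) (jh T.toBiv (lu LC.point)) =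
      T.comp (jh T.toBiv (K := (LC.G κ).prod LC.point) (L := LC.G κ)
        (Homeomorph.prodPUnit (LC.G κ))) (T.g κ) := h
  rw [mg, cl, F_jh, h2]
  exact jh_symm_comp T.toBiv (K := (LC.G κ).prod LC.point) (L := LC.G κ)
    (Homeomorph.prodPUnit (LC.G κ)) (T.g κ)

/-- two elements at the same stage -/
def left (y : R.Hom K ((LC.G κ).prod Z)) (l : Type) [Fintype l] :
    R.Hom K ((LC.G (κ ⊕ l)).prod Z) := R.comp y (R.tens (R.J (GK.stab κ l)) Z)

def right (κ : Type) [Fintype κ] (y : R.Hom K ((LC.G l).prod Z)) :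
    R.Hom K ((LC.G (κ ⊕ l)).prod Z) :=
  R.comp (R.comp y (R.tens (R.J (GK.stab l κ)) Z))
    (R.tens (jh R (K := LC.G (l ⊕ κ)) (L := LC.G (κ ⊕ l)) (GK.reindex (Equiv.sumComm l κ))) Z)

theorem cl_left (y : R.Hom K ((LC.G κ).prod Z)) (l : Type) [Fintype l] :
    cl T F (left y l) = cl T F y := cl_stab T F y l

theorem cl_right (κ : Type) [Fintype κ] (y : R.Hom K ((LC.G l).prod Z)) :
    cl T F (right κ y) = cl T F y := by
  rw [right, cl_re, cl_stab]

end

section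
variable (P : PRTheory R)

/-- the inclusion as a morphism -/
def pinc : BivHom R P.toGBiv.toBiv := ⟨P.inc, P.inc_add, P.inc_J, P.inc_comp, P.inc_tens⟩

/-- the class of an element at a stage -/
abbrev pc {κ : Type} [Fintype κ] {K Z : LC} (y : R.Hom K ((LC.G κ).prod Z)) : P.Hom K Z :=
  cl P.toGBiv (pinc P) y

theorem exists_pc {K Z : LC} (x : P.Hom K Z) :
    ∃ n : ℕ, ∃ y : R.Hom K ((LC.G (Fin n)).prod Z), pc P y = x := by
  obtain ⟨n, -, y, hy⟩ := P.surj x 0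
  exact ⟨n, y, hy.symm⟩

variable (T : GBiv) (F : BivHom R T.toBiv)

theorem cl_of_zero {κ : Type} [Fintype κ] {K Z : LC} (y : R.Hom K ((LC.G κ).prod Z))
    (h : pc P y = 0) : cl T F y = 0 := by
  obtain ⟨m, hm⟩ := P.eq_zero y h
  rw [← cl_stab T F y (Fin m), hm, cl_zero]

theorem cl_of_eq {κ l : Type} [Fintype κ] [Fintype l] {K Z : LC} (y : R.Hom K ((LC.G κ).prod Z))
    (y' : R.Hom K ((LC.G l).prod Z)) (h : pc P y = pc P y') : cl T F y = cl T F y' := by
  have h1 : pc P (left y l - right κ y') = 0 := by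
    rw [pc, cl_sub, cl_left, cl_right, sub_eq_zero]
    exact h
  have h2 := cl_of_zero P T F _ h1
  rw [cl_sub, cl_left, cl_right, sub_eq_zero] at h2
  exact h2

/-- the extension of `F` -/
def ex {K Z : LC} (x : P.Hom K Z) : T.Hom K Z := cl T F (exists_pc P x).choose_spec.choose

theorem ex_pc {κ : Type} [Fintype κ] {K Z : LC} (y : R.Hom K ((LC.G κ).prod Z)) :
    ex P T F (pc P y) = cl T F y :=
  cl_of_eq P T F _ _ (exists_pc P (pc P y)).choose_spec.choose_spec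

/-- the extension of `F` -/
def exH : BivHom P.toBiv T.toBiv where
  F := fun x => ex P T F x
  add x x' := by
    obtain ⟨n, y, rfl⟩ := exists_pc P x
    obtain ⟨m, y', rfl⟩ := exists_pc P x'
    have h : pc P y + pc P y' = pc P (left y (Fin m) + right (Fin n) y') := by
      rw [pc, pc, pc, cl_add, cl_left, cl_right]
    rw [h, ex_pc, ex_pc, ex_pc, cl_add, cl_left, cl_right]
  J f := by
    have h : P.J f = pc P (minc (Fin 0) (R.J f)) := by
      rw [pc, cl_minc]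
      exact (P.inc_J f).symm
    rw [h, ex_pc, cl_minc, F.J]
  comp x x' := by
    obtain ⟨n, y, rfl⟩ := exists_pc P x
    obtain ⟨m, y', rfl⟩ := exists_pc P x'
    have h : P.comp (pc P y) (pc P y') = pc P (mcomp y y') := (cl_mcomp _ _ y y').symm
    rw [h, ex_pc, ex_pc, ex_pc, cl_mcomp]
  tens x W := by
    obtain ⟨n, y, rfl⟩ := exists_pc P x
    have h : P.tens (pc P y) W = pc P (mtens y W) := (cl_mtens _ _ y W).symm
    rw [h, ex_pc, ex_pc, cl_mtens]

theorem exH_inc {K Z : LC} (x : R.Hom K Z) : (exH P T F).F (P.inc x) = F.F x := by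
  have h : P.inc x = pc P (minc (Fin 0) x) := (cl_minc _ (pinc P) (Fin 0) x).symm
  change ex P T F (P.inc x) = F.F x
  rw [h, ex_pc, cl_minc]

theorem exH_g (κ : Type) [Fintype κ] : (exH P T F).F (P.g κ) = T.g κ := by
  have h : P.g κ = pc P (mg R κ) := (cl_mg _ (pinc P) κ).symm
  change ex P T F (P.g κ) = T.g κ
  rw [h, ex_pc, cl_mg]

/-- (LG) -/
theorem exists_g_hom : ∃ Φ : BivHom P.toBiv T.toBiv,
    (∀ {K Z : LC} (x : R.Hom K Z), Φ.F (P.inc x) = F.F x) ∧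
      ∀ (κ : Type) [Fintype κ], Φ.F (P.g κ) = T.g κ :=
  ⟨exH P T F, fun x => exH_inc P T F x, fun κ _ => exH_g P T F κ⟩

end

/-! ## The augmentation -/

section
variable (P : PRTheory R) (o : Orient R) {T : Biv}

theorem upow_zero (S : Type) [Fintype S] : o.upow S 0 = R.J (PMap.toPoint (LC.Pr S 1)) := by
  have h : o.upow S 0 = R.comp (R.J (PMap.ofHomeo (L := (LC.Pr S 1).prod LC.point)
      (Homeomorph.prodPUnit (LC.Pr S 1)).symm)) (R.comp (R.tens (R.J (PMap.toPoint (LC.Pr S 1)))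
        LC.point) (R.J (PMap.ofHomeo (LC.lunit LC.point)))) := rfl
  rw [h, R.tens_J, ← R.J_comp, ← R.J_comp]
  rfl

theorem b_toPoint (i : ℕ) (hi : 0 < i) : R.comp (o.b (Fin (i + 1)) i)
    (R.J (PMap.toPoint (LC.Pr (Fin (i + 1)) 1))) = 0 := by
  have h := (o.b_dual (Fin (i + 1))).ne i 0 (by rw [Fintype.card_fin]; omega) hi.ne'
  rwa [← o.upow_eq_up, upow_zero] at h

variable {P}

theorem bun_triv (Ψ : BivHom P.toBiv T)
    (hg : ∀ (κ : Type) [Fintype κ], Ψ.F (P.g κ) = T.J (PMap.toPoint (LC.G κ)))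
    {K : LC} [CompactSpace K] {S : Type} [Fintype S] {n : ℕ} (hn : n ≤ Fintype.card S)
    (E : C(K, Pr S n)) : Ψ.F (P.toGBiv.bun E) = T.J (PMap.toPoint K) := by
  rw [GBiv.bun, dif_pos hn, Ψ.comp, Ψ.J, hg, ← T.J_comp]
  rfl

theorem exists_triv (Φ : BivHom P.toBiv T) : ∃ Ψ : BivHom P.toBiv T,
    (∀ {K Z : LC} (x : R.Hom K Z), Ψ.F (P.inc x) = Φ.F (P.inc x)) ∧
      (∀ i, 0 < i → Ψ.F (P.b o i) = 0) ∧
      ∀ (κ : Type) [Fintype κ], Ψ.F (P.g κ) = T.J (PMap.toPoint (LC.G κ)) := by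
  obtain ⟨Ψ, h1, h2⟩ : ∃ Ψ : BivHom P.toBiv T,
      (∀ {K Z : LC} (x : R.Hom K Z), Ψ.F (P.inc x) = Φ.F (P.inc x)) ∧
      ∀ (κ : Type) [Fintype κ], Ψ.F (P.g κ) = T.J (PMap.toPoint (LC.G κ)) :=
    exists_g_hom P (GCls.triv T).gbiv ((pinc P).trans Φ)
  refine ⟨Ψ, h1, fun i hi => ?_, h2⟩
  have h3 : Ψ.F (P.b o i) = T.comp (Ψ.F (P.inc (o.b (Fin (i + 1)) i)))
      (Ψ.F (P.toGBiv.bun (K := LC.Pr (Fin (i + 1)) 1) (ContinuousMap.id _))) := by
    rw [PRTheory.b, Ψ.comp]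
  rw [h3, bun_triv Ψ h2 (by rw [Fintype.card_fin]; omega), ← Ψ.J, ← Ψ.comp, ← P.inc_J,
    ← P.inc_comp, b_toPoint o i hi, inc_zero, Ψ.map_zero]

end

end Pool.Agent.Helper93.Stab.LG
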